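import Pool.Agent.Lib_MP_f1937f_nt.KSize

/-!
# MP_f1937f_nt, uniform theorem: the size of the prime (piece USIZE)

The same as `k_size` with the dependence on `j`.
-/

namespace LT

open Polynomial WeierstrassCurve

theorem u_zF_le : ∃ A : ℝ, 1 ≤ A ∧ ∀ u w : ℤ, ∀ n : ℕ, 0 < n →
    ∀ L ∈ CycL (0 : ℂ) (-31 / 4) n,
      ‖zF u w n ℂ L‖ ≤ (A * (|(u : ℝ)| + |(w : ℝ)|) + 1) * (n : ℝ) ^ 27 := by
  obtain ⟨K₁, hK₁, h₁⟩ := zF_le 1 0
  obtain ⟨K₂, hK₂, h₂⟩ := zF_le 0 1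
  refine ⟨max K₁ K₂, le_max_of_le_left hK₁, fun u w n hn L hL => ?_⟩
  have hlin : zF u w n ℂ L = (u : ℂ) * zF 1 0 n ℂ L + (w : ℂ) * zF 0 1 n ℂ L := by
    unfold zF
    push_cast
    ring
  have hu : ‖(u : ℂ)‖ = |(u : ℝ)| := Complex.norm_intCast u
  have hw : ‖(w : ℂ)‖ = |(w : ℝ)| := Complex.norm_intCast w
  have hn0 : (0 : ℝ) ≤ (n : ℝ) ^ 27 := by positivity
  have e1 := h₁ n hn L hL
  have e2 := h₂ n hn L hL
  have e3 : ‖zF 1 0 n ℂ L‖ ≤ max K₁ K₂ * (n : ℝ) ^ 27 :=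
    e1.trans (mul_le_mul_of_nonneg_right (le_max_left _ _) hn0)
  have e4 : ‖zF 0 1 n ℂ L‖ ≤ max K₁ K₂ * (n : ℝ) ^ 27 :=
    e2.trans (mul_le_mul_of_nonneg_right (le_max_right _ _) hn0)
  rw [hlin]
  calc ‖(u : ℂ) * zF 1 0 n ℂ L + (w : ℂ) * zF 0 1 n ℂ L‖
      ≤ ‖(u : ℂ) * zF 1 0 n ℂ L‖ + ‖(w : ℂ) * zF 0 1 n ℂ L‖ := norm_add_le _ _
    _ = |(u : ℝ)| * ‖zF 1 0 n ℂ L‖ + |(w : ℝ)| * ‖zF 0 1 n ℂ L‖ := by
        rw [norm_mul, norm_mul, hu, hw]
    _ ≤ |(u : ℝ)| * (max K₁ K₂ * (n : ℝ) ^ 27) + |(w : ℝ)| * (max K₁ K₂ * (n : ℝ) ^ 27) :=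
        add_le_add (mul_le_mul_of_nonneg_left e3 (abs_nonneg _))
          (mul_le_mul_of_nonneg_left e4 (abs_nonneg _))
    _ ≤ (max K₁ K₂ * (|(u : ℝ)| + |(w : ℝ)|) + 1) * (n : ℝ) ^ 27 := by
        nlinarith

theorem u_size : ∃ B : ℝ, 1 ≤ B ∧ ∀ (j : ℚ) (p : ℕ) [Fact p.Prime] (n : ℕ), 0 < n →
    ∀ N : ℚ, N ≠ 0 →
    NN (PadicAlgCl p) (j : PadicAlgCl p) n = (N : PadicAlgCl p) → 0 < padicValRat p N →
    Real.log p ≤ B * (1 + Real.log (|(j.num : ℝ)| + j.den)) * n * (1 + Real.log n) ^ 2 := by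
  obtain ⟨A, hA, hle⟩ := u_zF_le
  have hlogA : 0 ≤ Real.log (2 * A) := Real.log_nonneg (by linarith)
  refine ⟨2 * (Real.log (2 * A) + 27), by linarith, ?_⟩
  intro j p _ n hn N hN0 hN hv
  obtain ⟨Z, hZ⟩ := z_exists j.num j.den hn
  have hw : (j.den : ℤ) ≠ 0 := by exact_mod_cast j.den_nz
  have hj : (j : PadicAlgCl p) = ((j.num : ℤ) : PadicAlgCl p) / ((j.den : ℤ) : PadicAlgCl p) := by
    conv_lhs => rw [← Rat.num_div_den j]
    push_cast
    rfl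
  rw [hj] at hN
  obtain ⟨hZ0, hdvd⟩ := dvd_Z p hw hn hN0 hN hv (hZ (PadicAlgCl p))
  have hd1 : (1 : ℝ) ≤ j.den := by exact_mod_cast j.den_pos
  have habs : |(((j.den : ℕ) : ℤ) : ℝ)| = (j.den : ℝ) := by
    rw [Int.cast_natCast]
    exact abs_of_nonneg (Nat.cast_nonneg _)
  set S : ℝ := |(j.num : ℝ)| + j.den with hS
  have hS1 : 1 ≤ S := by
    have := abs_nonneg (j.num : ℝ)
    linarith
  set K : ℝ := A * S + 1 with hK
  have hK1 : 1 ≤ K := by nlinarith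
  have hb := KSize.z_le (u := j.num) (w := (j.den : ℤ)) hK1 (by
    intro n hn L hL
    have := hle j.num (j.den : ℤ) n hn L hL
    rwa [habs] at this) hn (hZ ℂ)
  have hpZ : (p : ℝ) ≤ |(Z : ℝ)| := by
    have h1 := Int.le_of_dvd (abs_pos.mpr hZ0) ((dvd_abs _ _).mpr hdvd)
    have h2 : ((p : ℤ) : ℝ) ≤ ((|Z| : ℤ) : ℝ) := by exact_mod_cast h1
    rw [Int.cast_abs] at h2
    exact_mod_cast h2
  have hn1 : (1 : ℝ) ≤ n := by exact_mod_cast hn
  have hp0 : (0 : ℝ) < p := by exact_mod_cast (Fact.out : p.Prime).pos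
  have hlogn : 0 ≤ Real.log n := Real.log_nonneg hn1
  have hl2 := KSize.log_two_le hn
  have hlogK := Real.log_nonneg hK1
  have hlogS := Real.log_nonneg hS1
  have hKle : Real.log K + 27 ≤ (Real.log (2 * A) + 27) * (1 + Real.log S) := by
    have h1 : K ≤ 2 * A * S := by nlinarith
    have h2 : Real.log K ≤ Real.log (2 * A) + Real.log S := by
      rw [← Real.log_mul (by positivity) (by linarith)]
      exact Real.log_le_log (by linarith) h1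
    nlinarith
  calc Real.log p ≤ Real.log ((K * (n : ℝ) ^ 27) ^ (n * (Nat.log 2 n + 1))) :=
        Real.log_le_log hp0 (hpZ.trans hb)
    _ = ((n : ℝ) * (Nat.log 2 n + 1)) * (Real.log K + 27 * Real.log n) := by
        rw [Real.log_pow, Real.log_mul (by positivity) (by positivity), Real.log_pow]
        push_cast
        ring
    _ ≤ ((n : ℝ) * (2 * (1 + Real.log n))) * ((Real.log K + 27) * (1 + Real.log n)) := by
        apply mul_le_mul
        · apply mul_le_mul_of_nonneg_left _ (by linarith)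
          linarith
        · nlinarith
        · positivity
        · positivity
    _ = 2 * (Real.log K + 27) * (n * (1 + Real.log n) ^ 2) := by ring
    _ ≤ 2 * ((Real.log (2 * A) + 27) * (1 + Real.log S)) * (n * (1 + Real.log n) ^ 2) := by
        apply mul_le_mul_of_nonneg_right _ (by positivity)
        linarith
    _ = 2 * (Real.log (2 * A) + 27) * (1 + Real.log S) * n * (1 + Real.log n) ^ 2 := by ring

end LT
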