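import Pool.Agent.Lib_MP_f1937f_nt.KSign
import Pool.Agent.Lib_MP_f1937f_nt.LocMain
import Pool.Agent.Lib_MP_f1937f_nt.GlobGen
import Pool.Agent.Lib_MP_f1937f_nt.SizeE

/-!
# MP_f1937f_nt, uniform theorem: primes which divide the denominator of `j` (piece UVAL)

The number of cyclic subgroups of order `h m`, `m > 1` odd, `h = 1, 2`, is even: complex conjugation is an involution on
them and the number of fixed ones is the number of factorisations of `m` with coprime factors, which is even. So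
`v_p(N_n)` is even when `v_p(j) < 0`.
-/

namespace LT

open Polynomial WeierstrassCurve PeriodPair

namespace Sgn

theorem u_fix_card {Λ : PeriodPair} {θ : ℂ →+ Pt (0 : ℂ) (-31 / 4)} (hθ : IsTh Λ θ) {n : ℕ}
    (hn : 0 < n) (P : Finset (ℕ × ℕ)) (S : ℕ × ℕ → Set ℂ)
    (hfwd : ∀ L ∈ CycL (0 : ℂ) (-31 / 4) n, L.map cj = L → ∃ p ∈ P, ∀ z : ℂ, θ z ∈ L ↔ z ∈ S p)
    (hbwd : ∀ p ∈ P, ∃ L ∈ CycL (0 : ℂ) (-31 / 4) n, L.map cj = L ∧ ∀ z : ℂ, θ z ∈ L ↔ z ∈ S p)
    (hinj : ∀ p ∈ P, ∀ q ∈ P, S p = S q → p = q) (hP : Even P.card) :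
    Even (CycL (0 : ℂ) (-31 / 4) n).ncard := by
  classical
  have hfin := cyc_finite hθ hn
  rw [Set.ncard_eq_toFinset_card _ hfin]
  have hfix : (hfin.toFinset.filter (fun L => L.map cj = L)).card = P.card := by
    symm
    refine Finset.card_bij (fun p hp => Classical.choose (hbwd p hp)) ?_ ?_ ?_
    · intro p hp
      obtain ⟨a1, a2, -⟩ := Classical.choose_spec (hbwd p hp)
      rw [Finset.mem_filter, Set.Finite.mem_toFinset]
      exact ⟨a1, a2⟩
    · intro p hp q hq hpq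
      obtain ⟨-, -, a3⟩ := Classical.choose_spec (hbwd p hp)
      obtain ⟨-, -, b3⟩ := Classical.choose_spec (hbwd q hq)
      apply hinj p hp q hq
      ext z
      rw [← a3, ← b3]
      have hpq' : Classical.choose (hbwd p hp) = Classical.choose (hbwd q hq) := hpq
      rw [hpq']
    · intro L hL
      rw [Finset.mem_filter, Set.Finite.mem_toFinset] at hL
      obtain ⟨p, hp, hz⟩ := hfwd L hL.1 hL.2
      refine ⟨p, hp, ?_⟩
      obtain ⟨-, -, a3⟩ := Classical.choose_spec (hbwd p hp)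
      ext Q
      obtain ⟨z, rfl⟩ := hθ.surj Q
      rw [a3, hz]
  have hno : Even (hfin.toFinset.filter (fun L => ¬ L.map cj = L)).card := by
    have h1 : ∑ _x ∈ hfin.toFinset.filter (fun L => ¬ L.map cj = L), (1 : ZMod 2) = 0 := by
      refine Finset.sum_involution (fun L _ => L.map cj) ?_ ?_ ?_ ?_
      · intro L _
        decide
      · intro L hL _ h
        exact (Finset.mem_filter.1 hL).2 h
      · intro L hL
        rw [Finset.mem_filter, Set.Finite.mem_toFinset] at hL ⊢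
        refine ⟨map_cj_cyc hL.1, fun h => hL.2 ?_⟩
        rw [map_cj_cj] at h
        exact h.symm
      · intro L _
        exact map_cj_cj L
    rw [Finset.sum_const, nsmul_eq_mul, mul_one] at h1
    exact (ZMod.natCast_eq_zero_iff_even).mp h1
  rw [← Finset.card_filter_add_card_filter_not (s := hfin.toFinset) (fun L => L.map cj = L), hfix]
  exact hP.add hno

theorem u_PP_pos {m : ℕ} {p : ℕ × ℕ} (hp : p ∈ PP m) : (0 : ℝ) < p.1 ∧ (0 : ℝ) < p.2 := by
  obtain ⟨h1, h2, h3⟩ := PP_mem hp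
  have a1 : p.1 ≠ 0 := by
    intro h0
    apply h3
    rw [← h1, h0, zero_mul]
  have a2 : p.2 ≠ 0 := by
    intro h0
    apply h3
    rw [← h1, h0, mul_zero]
  exact ⟨by exact_mod_cast Nat.pos_of_ne_zero a1, by exact_mod_cast Nat.pos_of_ne_zero a2⟩

theorem u_cyc_one {m : ℕ} (hm : Odd m) (hm1 : 1 < m) : Even (CycL (0 : ℂ) (-31 / 4) m).ncard := by
  obtain ⟨Λ, α, β, hα, hβ, hαβ, hg2, hg3, h, -⟩ := hex_exists
  obtain ⟨θ, hθ, -⟩ := th_exists Λ (a := (0 : ℂ)) (b := -31 / 4) (by rw [hg2]; simp) (by rw [hg3])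
  refine u_fix_card hθ hm.pos (PP m) (fun p => CL (α / p.1) (β / p.2)) ?_ ?_ ?_ (PP_even hm1)
  · intro L hL hcj
    exact clsB_one hθ hα hβ h hm hL hcj
  · intro p hp
    obtain ⟨h1, h2, -⟩ := PP_mem hp
    rw [← h1, Nat.odd_mul] at hm
    have key := clsA_one hθ hα hβ h hm.1 hm.2 h2 (u := 2) (v := 2)
      (two_coprime hm.1) (two_coprime hm.2) (by decide)
    refine ⟨_, ⟨_, key.1.trans h1, rfl⟩, ?_, key.2⟩
    exact stable_of hθ (lat_conj h) key.2 fun z hz => CL_conj hz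
  · intro p hp q hq hpq
    obtain ⟨a1', a2'⟩ := u_PP_pos hp
    obtain ⟨b1', b2'⟩ := u_PP_pos hq
    obtain ⟨e1, e2⟩ := CL_inj (div_pos hα a1') (div_pos hβ a2') (div_pos hα b1') (div_pos hβ b2') hpq
    rw [div_eq_div_iff a1'.ne' b1'.ne'] at e1
    rw [div_eq_div_iff a2'.ne' b2'.ne'] at e2
    have e3 := mul_left_cancel₀ hα.ne' e1
    have e4 := mul_left_cancel₀ hβ.ne' e2
    apply Prod.ext
    · exact_mod_cast e3.symm
    · exact_mod_cast e4.symm

theorem u_cyc_two {m : ℕ} (hm : Odd m) (hm1 : 1 < m) :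
    Even (CycL (0 : ℂ) (-31 / 4) (2 * m)).ncard := by
  obtain ⟨Λ, α, β, hα, hβ, hαβ, hg2, hg3, h, -⟩ := hex_exists
  obtain ⟨θ, hθ, -⟩ := th_exists Λ (a := (0 : ℂ)) (b := -31 / 4) (by rw [hg2]; simp) (by rw [hg3])
  refine u_fix_card hθ (by omega) (PP m) (fun p => RR (α / (2 * p.1)) (β / (2 * p.2))) ?_ ?_ ?_
    (PP_even hm1)
  · intro L hL hcj
    exact clsB_two hθ hα hβ h hm hL hcj
  · intro p hp
    obtain ⟨h1, h2, -⟩ := PP_mem hp
    rw [← h1, Nat.odd_mul] at hm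
    have key := clsA_two hθ hα hβ h hm.1 hm.2 h2 (u := 1) (v := 2) isCoprime_one_left
      (two_coprime hm.2) (by decide)
    refine ⟨_, ⟨_, key.1.trans (by rw [h1]), rfl⟩, ?_, key.2⟩
    exact stable_of hθ (lat_conj h) key.2 fun z hz => RR_conj hz
  · intro p hp q hq hpq
    obtain ⟨a1, a2⟩ := u_PP_pos hp
    obtain ⟨b1, b2⟩ := u_PP_pos hq
    have a1' : (0 : ℝ) < 2 * p.1 := by linarith
    have a2' : (0 : ℝ) < 2 * p.2 := by linarith
    have b1' : (0 : ℝ) < 2 * q.1 := by linarith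
    have b2' : (0 : ℝ) < 2 * q.2 := by linarith
    obtain ⟨e1, e2⟩ := RR_inj (div_pos hα a1') (div_pos hβ a2') (div_pos hα b1') (div_pos hβ b2') hpq
    rw [div_eq_div_iff a1'.ne' b1'.ne'] at e1
    rw [div_eq_div_iff a2'.ne' b2'.ne'] at e2
    have e3 := mul_left_cancel₀ two_ne_zero (mul_left_cancel₀ hα.ne' e1)
    have e4 := mul_left_cancel₀ two_ne_zero (mul_left_cancel₀ hβ.ne' e2)
    apply Prod.ext
    · exact_mod_cast e3.symm
    · exact_mod_cast e4.symm

end Sgn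

theorem u_cyc_even {h m : ℕ} (hh : h = 1 ∨ h = 2) (hm : Odd m) (hm1 : 1 < m) (Ω : Type) [Field Ω]
    [DecidableEq Ω] [CharZero Ω] [IsAlgClosed Ω] :
    Even (CycL (0 : Ω) (-31 / 4) (h * m)).ncard := by
  have hn : 0 < h * m := by
    have := hm.pos
    rcases hh with rfl | rfl <;> omega
  have hC : Even (CycL (0 : ℂ) (-31 / 4) (h * m)).ncard := by
    rcases hh with rfl | rfl
    · rw [one_mul]
      exact Sgn.u_cyc_one hm hm1
    · exact Sgn.u_cyc_two hm hm1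
  obtain ⟨N, hN⟩ := prod_rat hn (fun Ω _ _ _ => (-1 : Ω)) (by
    intro Ω Ω' _ _ _ _ _ _ σ h0 h1 L hL
    rw [map_neg, map_one])
  have key : ∀ (Ω : Type) [Field Ω] [DecidableEq Ω] [CharZero Ω] [IsAlgClosed Ω],
      ∏ᶠ L ∈ CycL (0 : Ω) (-31 / 4) (h * m), (-1 : Ω) =
        (-1) ^ (CycL (0 : Ω) (-31 / 4) (h * m)).ncard := by
    intro Ω _ _ _ _
    have hfin := (cycL_finite (Ω := Ω) hn).1
    rw [finprod_mem_eq_finite_toFinset_prod _ hfin, Finset.prod_const,
      Set.ncard_eq_toFinset_card _ hfin]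
  have h1 : N = 1 := by
    have h2 := hN ℂ
    rw [key ℂ, hC.neg_one_pow] at h2
    exact_mod_cast h2.symm
  have h3 := hN Ω
  rw [key Ω, h1, Rat.cast_one] at h3
  by_contra hodd
  rw [Nat.not_even_iff_odd] at hodd
  rw [hodd.neg_one_pow] at h3
  have h4 : (2 : Ω) = 0 := by
    have : (1 : Ω) + 1 = 0 := by
      nth_rewrite 1 [← h3]
      ring
    rw [← this]
    norm_num
  exact two_ne_zero h4

/-- At a prime of the denominator of `j` the number `N_n` has even valuation. -/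
theorem u_val_even {p : ℕ} [Fact p.Prime] (h5 : 5 ≤ p) (h3 : p % 3 = 2) {n : ℕ} (hn : 0 < n)
    (hpn : ¬ p ∣ n) (hev : Even (CycL (0 : PadicAlgCl p) (-31 / 4) n).ncard) {j : ℚ}
    (hj : padicValRat p j < 0) {N : ℚ} (hN0 : N ≠ 0)
    (hN : NN (PadicAlgCl p) (j : PadicAlgCl p) n = (N : PadicAlgCl p)) :
    Even (padicValRat p N) := by
  classical
  have hj0 : j ≠ 0 := by
    rintro rfl
    simp at hj
  have hp1 : (1 : ℝ) < p := by exact_mod_cast (Fact.out : p.Prime).one_lt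
  have hnj : ‖(j : PadicAlgCl p)‖ = (p : ℝ) ^ (-padicValRat p j) := by
    rw [norm_rat_alg, padicNorm.eq_zpow_of_nonzero hj0]
    push_cast
    rfl
  have hj1 : 1 < ‖(j : PadicAlgCl p)‖ := by
    rw [hnj]
    exact one_lt_zpow₀ hp1 (by linarith)
  obtain ⟨red, hred, hsurj⟩ := redE_exists h5 h3
  have hfin := (cycL_finite (Ω := PadicAlgCl p) hn).1
  have hterm : ∀ L ∈ hfin.toFinset, ‖(j : PadicAlgCl p) - jL 0 (-31 / 4) L‖ =
      ‖(j : PadicAlgCl p)‖ := by
    intro L hL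
    rw [Set.Finite.mem_toFinset] at hL
    obtain ⟨hLf, hLc, -⟩ := cycL_mem hn hL
    have h1 := jL_red h5 h3 hred L hLf (by rw [hLc]; exact hpn)
    have h2 : ‖jL 0 (-31 / 4) L‖ ≤ 1 := mem_OP.mp h1.mem
    have h6 : ‖-jL 0 (-31 / 4) L‖ < ‖(j : PadicAlgCl p)‖ := by
      rw [norm_neg]
      exact lt_of_le_of_lt h2 hj1
    rw [sub_eq_add_neg]
    rw [IsUltrametricDist.norm_add_eq_max_of_norm_ne_norm h6.ne', max_eq_left h6.le]
  have hnorm : ‖(N : PadicAlgCl p)‖ =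
      ‖(j : PadicAlgCl p)‖ ^ (CycL (0 : PadicAlgCl p) (-31 / 4) n).ncard := by
    rw [← hN, NN, finprod_mem_eq_finite_toFinset_prod _ hfin, norm_prod,
      Finset.prod_congr rfl hterm, Finset.prod_const, Set.ncard_eq_toFinset_card _ hfin]
  rw [hnj, norm_rat_alg, padicNorm.eq_zpow_of_nonzero hN0, ← zpow_natCast, ← zpow_mul] at hnorm
  push_cast at hnorm
  have h7 : -padicValRat p N = -padicValRat p j *
      ((CycL (0 : PadicAlgCl p) (-31 / 4) n).ncard : ℤ) :=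
    zpow_right_injective₀ (by linarith) hp1.ne' hnorm
  have h8 : padicValRat p N = padicValRat p j *
      ((CycL (0 : PadicAlgCl p) (-31 / 4) n).ncard : ℤ) := by linarith
  rw [h8]
  exact Even.mul_left (by exact_mod_cast hev) _

end LT
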