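import Pool.Agent.Lib_MP_f1937f_un.Win
import Pool.Agent.Lib_MP_f1937f_un.Val
import Pool.Agent.Lib_MP_f1937f_un.Size
import Pool.Agent.Lib_MP_f1937f_nt.CorePrime

/-!
# MP_f1937f_nt, uniform theorem: the sign and one prime for one modulus (piece UCORE)

`u_sign` is `k_sign` with the explicit windows of `Win.lean`; `u_core` is `k_core` where only the primes dividing `2 M` are
supposed to be killed: at a prime dividing the denominator of `j` the number `N_n` has even valuation.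
-/

namespace LT

open Polynomial WeierstrassCurve PeriodPair

open Sgn in
theorem u_sign : ∃ c : ℝ, 0 < c ∧ c ≤ 1 ∧ ∀ j : ℝ, j ≠ 1728 →
    ∃ h : ℕ, (h = 1 ∨ h = 2) ∧ ∃ lo η : ℝ, 1 ≤ lo ∧ lo ≤ 4 * (1 + Real.log (2 + |j|)) ∧
      c * min 1 |1728 - j| ≤ η ∧ 0 < η ∧ η ≤ 1 / 120 ∧
      ∀ M Q : ℕ, Odd M → 11 ∣ M → Q.Prime → Odd Q → ¬ Q ∣ M → lo < (Q : ℝ) / (M : ℝ) →
        (Q : ℝ) / (M : ℝ) < (1 + 6 * η) * lo →
        (∀ L ∈ CycL (0 : ℂ) (-31 / 4) (h * (M * Q)), jL 0 (-31 / 4) L ≠ (j : ℂ)) →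
        ∃ r : ℝ, r < 0 ∧ NN ℂ (j : ℂ) (h * (M * Q)) = (r : ℂ) := by
  obtain ⟨c₁, hc₁, hc₁1, H₁⟩ := u_win_bot
  obtain ⟨c₂, hc₂, hc₂1, H₂⟩ := u_win_top
  refine ⟨min c₁ c₂, lt_min hc₁ hc₂, (min_le_left _ _).trans hc₁1, fun j hj => ?_⟩
  obtain ⟨Λ, α, β, hα, hβ, hαβ, hg2, hg3, hlat, -⟩ := hex_exists
  obtain ⟨θ, hθ, -⟩ := th_exists Λ (a := (0 : ℂ)) (b := -31 / 4) (by rw [hg2]; simp) (by rw [hg3])
  have hs3 : 0 < Real.sqrt 3 := Real.sqrt_pos.2 (by norm_num)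
  have hs31 : 1 ≤ Real.sqrt 3 := by
    rw [Real.one_le_sqrt]
    norm_num
  have hs32 : Real.sqrt 3 ≤ 2 := by
    rw [Real.sqrt_le_left (by norm_num)]
    norm_num
  have hτ : β / α = Real.sqrt 3 ∨ β / α = 1 / Real.sqrt 3 := by
    rcases hαβ with h | h
    · left
      rw [h, mul_div_assoc, div_self hα.ne', mul_one]
    · right
      rw [h]
      field_simp
  have hτ0 : 0 < β / α := div_pos hβ hα
  have hpos : ∀ {m : ℕ} {p : ℕ × ℕ}, p ∈ PP m → 0 < β / α * p.1 / p.2 := by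
    intro m p hp
    obtain ⟨a1', a2'⟩ := u_PP_pos hp
    positivity
  have hmin0 : 0 ≤ min 1 |1728 - j| := le_min zero_le_one (abs_nonneg _)
  have hlog2 : 0 ≤ Real.log (2 + |j|) := Real.log_nonneg (by have := abs_nonneg j; linarith)
  rcases lt_or_gt_of_ne hj with hlt | hgt
  · obtain ⟨ylo, η, h1, h1', h2, h2', h2'', h3, h4⟩ := H₁ j hlt
    refine ⟨1, Or.inl rfl, Real.sqrt 3 * ylo, η, by nlinarith [hs31], by nlinarith,
      (mul_le_mul_of_nonneg_right (min_le_left _ _) hmin0).trans h2, h2', h2'', ?_⟩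
    intro M Q hM h11 hQp hQo hQM hlo hhi hne
    rw [one_mul] at hne ⊢
    have hM1 : 1 < M := lt_of_lt_of_le (by norm_num) (Nat.le_of_dvd hM.pos h11)
    have hm : Odd (M * Q) := hM.mul hQo
    have hhi' : (Q : ℝ) / (M : ℝ) < Real.sqrt 3 * ((1 + 6 * η) * ylo) :=
      lt_of_lt_of_eq hhi (by ring)
    obtain ⟨p₀, hp₀, ⟨w1, w2⟩, w3⟩ := k_comb hτ h1 hM1 hQp hQM hlo hhi'
    obtain ⟨f1, r, hr, f2⟩ := fix_one hθ hα hβ hlat hm j hne
    refine ⟨_, ?_, f2⟩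
    apply mul_neg_of_pos_of_neg hr
    refine neg_one_prod (PP (M * Q)) (fun p => j - J1 (β / α * p.1 / p.2)) hp₀ ?_ ?_
    · have := h3 _ w1 w2
      rw [max_inv (fun y hy => J1_inv hy) (hpos hp₀)] at this
      simpa using this
    · intro p hp hpp
      have h5 := h4 _ (w3 p hp hpp)
      rw [max_inv (fun y hy => J1_inv hy) (hpos hp)] at h5
      have h6 := f1 p hp
      have : J1 (β / α * p.1 / p.2) < j := lt_of_le_of_ne h5 h6
      simpa using this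
  · obtain ⟨ylo, η, h1, h1', h2, h2', h2'', h3, h4⟩ := H₂ j hgt
    refine ⟨2, Or.inr rfl, Real.sqrt 3 * ylo, η, by nlinarith [hs31], by nlinarith,
      (mul_le_mul_of_nonneg_right (min_le_right _ _) hmin0).trans h2, h2', h2'', ?_⟩
    intro M Q hM h11 hQp hQo hQM hlo hhi hne
    have hM1 : 1 < M := lt_of_lt_of_le (by norm_num) (Nat.le_of_dvd hM.pos h11)
    have hm : Odd (M * Q) := hM.mul hQo
    have hm1 : 1 < M * Q := lt_of_lt_of_le hM1 (Nat.le_mul_of_pos_right _ hQp.pos)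
    have hhi' : (Q : ℝ) / (M : ℝ) < Real.sqrt 3 * ((1 + 6 * η) * ylo) :=
      lt_of_lt_of_eq hhi (by ring)
    obtain ⟨p₀, hp₀, ⟨w1, w2⟩, w3⟩ := k_comb hτ h1 hM1 hQp hQM hlo hhi'
    obtain ⟨f1, r, hr, f2⟩ := fix_two hθ hα hβ hlat hm j hne
    refine ⟨_, ?_, f2⟩
    apply mul_neg_of_pos_of_neg hr
    refine neg_even_prod (PP (M * Q)) (PP_even hm1) (fun p => j - J2 (β / α * p.1 / p.2)) hp₀ ?_ ?_
    · have := h3 _ w1 w2
      rw [max_inv (fun y hy => J2_inv hy) (hpos hp₀)] at this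
      simpa using this
    · intro p hp hpp
      have h5 := h4 _ (w3 p hp hpp)
      rw [max_inv (fun y hy => J2_inv hy) (hpos hp)] at h5
      have h6 := f1 p hp
      have : j < J2 (β / α * p.1 / p.2) := lt_of_le_of_ne h5 h6.symm
      simpa using this

theorem u_core : ∃ c B : ℝ, 0 < c ∧ c ≤ 1 ∧ 1 ≤ B ∧ ∀ W : WeierstrassCurve ℤ, W.Δ ≠ 0 → NoCM W →
    ∃ (h : ℕ) (lo η : ℝ), (h = 1 ∨ h = 2) ∧ 1 ≤ lo ∧
      lo ≤ 4 * (1 + Real.log (2 + |((jW W : ℚ) : ℝ)|)) ∧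
      c * min 1 |1728 - ((jW W : ℚ) : ℝ)| ≤ η ∧ 0 < η ∧ η ≤ 1 / 120 ∧
      ∀ M Q : ℕ, Odd M → ¬ 3 ∣ M → 11 ∣ M → Q.Prime → Q % 3 = 1 → ¬ Q ∣ M →
      lo < (Q : ℝ) / (M : ℝ) → (Q : ℝ) / (M : ℝ) < (1 + 6 * η) * lo →
      (∀ p : ℕ, p.Prime → p % 3 = 2 → p ∣ 2 * M → KilledBy p M) →
      ∃ (p : ℕ) (_ : Fact p.Prime), 5 ≤ p ∧ p % 3 = 2 ∧ ¬ KilledBy p M ∧
        ¬ p ∣ h * (M * Q) ∧ 0 ≤ padicValRat p (jW W) ∧ (¬ (p : ℤ) ∣ W.Δ → affCount W p = p) ∧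
        Real.log p ≤ B * (1 + Real.log (|((jW W).num : ℝ)| + (jW W).den)) *
          ((h * (M * Q) : ℕ) : ℝ) * (1 + Real.log ((h * (M * Q) : ℕ) : ℝ)) ^ 2 ∧
        ∃ L : AddSubgroup (Pt (0 : Fb p) (-31 / 4)), RedL p (h * (M * Q)) (jW W) L := by
  obtain ⟨c, hc, hc1, hsign₀⟩ := u_sign
  obtain ⟨B, hB, hsize₀⟩ := u_size
  refine ⟨c, B, hc, hc1, hB, fun W hΔ hCM => ?_⟩
  obtain ⟨hc0, hc1⟩ := noCM_ne hΔ hCM
  have hj1728 : ((jW W : ℚ) : ℝ) ≠ 1728 := by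
    intro h0
    have h1 : jW W = 1728 := by exact_mod_cast h0
    have h2 := jW_eq hΔ
    rw [h1] at h2
    exact hc1 (by exact_mod_cast h2)
  obtain ⟨h, hh, lo, η, hlo, hlo', hη, hη0, hη1, hsign⟩ := hsign₀ ((jW W : ℚ) : ℝ) hj1728
  refine ⟨h, lo, η, hh, hlo, hlo', hη, hη0, hη1, ?_⟩
  intro M Q hMo hM3 hM11 hQ hQ3 hQM hw1 hw2 hkill
  have hh0 : 0 < h := by rcases hh with rfl | rfl <;> norm_num
  have hM : 0 < M := hMo.pos
  have hQ0 : 0 < Q := hQ.pos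
  have hQodd : Odd Q := by
    rcases hQ.eq_two_or_odd' with h2 | h2
    · rw [h2] at hQ3
      norm_num at hQ3
    · exact h2
  have hM1 : 1 < M := lt_of_lt_of_le (by norm_num) (Nat.le_of_dvd hM hM11)
  have hm1 : 1 < M * Q := lt_of_lt_of_le hM1 (Nat.le_mul_of_pos_right _ hQ0)
  set n : ℕ := h * (M * Q) with hn
  have hn0 : 0 < n := by positivity
  -- the rational number `N`
  obtain ⟨N, hN⟩ := NN_rat (jW W) hn0
  have hjC : ((((jW W : ℚ) : ℝ)) : ℂ) = ((jW W : ℚ) : ℂ) := by norm_cast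
  have hNneg : N < 0 := by
    obtain ⟨r, hr, hNr⟩ := hsign M Q hMo hM11 hQ hQodd hQM hw1 hw2
      (by
        rw [← hn, hjC]
        exact jL_ne hΔ hCM hn0)
    rw [← hn, hjC, hN ℂ] at hNr
    have h1 : ((N : ℝ) : ℂ) = (r : ℂ) := by
      rw [← hNr]
      norm_cast
    have h2 : (N : ℝ) = r := by exact_mod_cast h1
    have h3 : (N : ℝ) < 0 := by rw [h2]; exact hr
    exact_mod_cast h3
  have hN0 : N ≠ 0 := hNneg.ne
  have cast_eq : ∀ (p : ℕ) [Fact p.Prime] (a b : ℚ_[p]),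
      NN (PadicAlgCl p) ((jW W : ℚ) : PadicAlgCl p) n =
        algebraMap ℚ_[p] (PadicAlgCl p) (a ^ 2 + 3 * b ^ 2) → (N : ℚ_[p]) = a ^ 2 + 3 * b ^ 2 := by
    intro p _ a b hab
    rw [hN (PadicAlgCl p)] at hab
    apply (algebraMap ℚ_[p] (PadicAlgCl p)).injective
    rw [← hab, map_ratCast]
  -- the prime `p`
  obtain ⟨p, hp, hp3, hodd⟩ : ∃ p : ℕ, p.Prime ∧ p % 3 = 2 ∧ Odd (padicValRat p N) := by
    obtain ⟨a, b, hab⟩ := norm_three hn0 (n := n) (by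
      rw [hn]
      exact Dvd.dvd.mul_left (Dvd.dvd.mul_right hM11 _) _) (jW W)
    exact rec_three hNneg (cast_eq 3 a b hab)
  have hpf : Fact p.Prime := ⟨hp⟩
  -- it is not killed
  have hnk : ¬ KilledBy p n := by
    intro hk
    obtain ⟨a, b, hab⟩ := norm_kill hp3 hn0 hk (jW W)
    have := norm_even hp3 hN0 (cast_eq p a b hab)
    exact (Int.not_even_iff_odd.2 hodd) this
  have hnk' : ¬ KilledBy p M := by
    rintro ⟨q, h1, h2, h3, h4⟩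
    exact hnk ⟨q, h1, by
      rw [hn]
      exact Dvd.dvd.mul_left (Dvd.dvd.mul_right h2 _) _, h3, h4⟩
  have hpM : ¬ p ∣ 2 * M := fun h1 => hnk' (hkill p hp hp3 h1)
  have hp2 : ¬ p ∣ 2 := fun h1 => hpM (Dvd.dvd.mul_right h1 _)
  have hp5 : 5 ≤ p := by
    have h1 := hp.two_le
    have h2 : p ≠ 2 := fun h0 => hp2 (by rw [h0])
    have h3 : p ≠ 3 := by omega
    have h4 : p ≠ 4 := by
      rintro rfl
      exact absurd hp (by norm_num)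
    omega
  have hpn : ¬ p ∣ n := by
    rw [hn]
    intro h0
    rcases hp.dvd_mul.1 h0 with h2 | h2
    · rcases hh with rfl | rfl
      · exact hp.one_lt.ne' (Nat.dvd_one.1 h2)
      · exact hp2 h2
    · rcases hp.dvd_mul.1 h2 with h3 | h3
      · exact hpM (Dvd.dvd.mul_left h3 _)
      · have h4 := (Nat.prime_dvd_prime_iff_eq hp hQ).1 h3
        omega
  -- it does not divide the denominator of `j`
  have hjv : 0 ≤ padicValRat p (jW W) := by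
    by_contra hneg
    push Not at hneg
    have hev := u_cyc_even hh (hMo.mul hQodd) hm1 (PadicAlgCl p)
    have := u_val_even hp5 hp3 hn0 hpn hev hneg hN0 (hN (PadicAlgCl p))
    exact (Int.not_even_iff_odd.2 hodd) this
  obtain ⟨hpos, L, hL⟩ := local_main hp5 hp3 hn0 hpn hjv (hN (PadicAlgCl p)) hodd
  have hlog := hsize₀ (jW W) p n hn0 N hN0 (hN (PadicAlgCl p)) hpos
  refine ⟨p, hpf, hp5, hp3, hnk', hpn, hjv, fun hb1 => ?_, hlog, L, hL⟩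
  exact ss_of_red hp5 hp3 hn0 hpn W (jW_eq hΔ) hb1 hL

end LT
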