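import Pool.Agent.Lib_MP_f1937f_nt.KServe

/-!
# MP_f1937f_nt, uniform theorem: one prime serves few `m` (piece USERVE)

The same as `k_serve` without the hypothesis that `j ≠ 0, 1728` modulo `p`. Instead of the two quadratic classes of `b / a` there
are at most four classes of the pair `(a, b)` of the coefficients of the quotient.
-/

namespace LT

open Polynomial WeierstrassCurve

open Classical in
/-- The class of a curve over `F_p`. -/
noncomputable def ucls (p : ℕ) {k : Type} [Field k] (a b : k) : k :=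
  if a = 0 then b ^ ((p - 1) / 2)
  else if b = 0 then a ^ (if p % 4 = 1 then (p - 1) / 4 else (p - 1) / 2)
  else (b / a) ^ ((p - 1) / 2)

namespace UServe

theorem pow_pred {k : Type} [Field k] {p : ℕ} (hp : 1 ≤ p) {s : k} (hs : s ≠ 0) (hf : s ^ p = s) :
    s ^ (p - 1) = 1 := by
  apply mul_left_cancel₀ hs
  rw [mul_one, ← pow_succ', Nat.sub_add_cancel hp]
  exact hf

theorem pow_of_pred {k : Type} [Field k] {p : ℕ} (hp : 1 ≤ p) {v : k} (h : v ^ (p - 1) = 1) :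
    v ^ p = v := by
  calc v ^ p = v ^ (p - 1 + 1) := by rw [Nat.sub_add_cancel hp]
    _ = v := by rw [pow_succ, h, one_mul]

theorem ne_zero_of_pow {k : Type} [Field k] {v s : k} {n : ℕ} (hn : n ≠ 0) (hs : s ≠ 0)
    (h : v ^ n = s) : v ≠ 0 := by
  rintro rfl
  apply hs
  rw [← h, zero_pow hn]

/-- sixth powers, `p = 2 mod 3` -/
theorem six {k : Type} [Field k] [IsAlgClosed k] {p : ℕ} (hp : 1 ≤ p) (h2 : p % 2 = 1)
    (h3 : p % 3 = 2) {s : k} (hs : s ≠ 0) (h : s ^ ((p - 1) / 2) = 1) :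
    ∃ v : k, v ≠ 0 ∧ v ^ p = v ∧ v ^ 6 = s := by
  obtain ⟨l, hl⟩ : ∃ l, p = 6 * l + 5 := ⟨p / 6, by omega⟩
  have hk : (p - 1) / 2 = 3 * l + 2 := by omega
  rw [hk] at h
  obtain ⟨v, hv⟩ := IsAlgClosed.exists_pow_nat_eq (s ^ (l + 1)) (n := 2) (by norm_num)
  refine ⟨v, ne_zero_of_pow two_ne_zero (pow_ne_zero _ hs) hv, ?_, ?_⟩
  · apply pow_of_pred hp
    have : p - 1 = 2 * (3 * l + 2) := by omega
    rw [this, pow_mul, hv, ← pow_mul, mul_comm, pow_mul, h, one_pow]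
  · have : v ^ 6 = (v ^ 2) ^ 3 := by ring
    rw [this, hv, ← pow_mul]
    have : (l + 1) * 3 = (3 * l + 2) + 1 := by ring
    rw [this, pow_succ, h, one_mul]

/-- fourth powers, `p = 3 mod 4` -/
theorem four_a {k : Type} [Field k] [IsAlgClosed k] {p : ℕ} (hp : 1 ≤ p) (h4 : p % 4 = 3)
    {s : k} (hs : s ≠ 0) (h : s ^ ((p - 1) / 2) = 1) :
    ∃ v : k, v ≠ 0 ∧ v ^ p = v ∧ v ^ 4 = s := by
  obtain ⟨l, hl⟩ : ∃ l, p = 4 * l + 3 := ⟨p / 4, by omega⟩
  have hk : (p - 1) / 2 = 2 * l + 1 := by omega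
  rw [hk] at h
  obtain ⟨v, hv⟩ := IsAlgClosed.exists_pow_nat_eq (s ^ (l + 1)) (n := 2) (by norm_num)
  refine ⟨v, ne_zero_of_pow two_ne_zero (pow_ne_zero _ hs) hv, ?_, ?_⟩
  · apply pow_of_pred hp
    have : p - 1 = 2 * (2 * l + 1) := by omega
    rw [this, pow_mul, hv, ← pow_mul, mul_comm, pow_mul, h, one_pow]
  · have : v ^ 4 = (v ^ 2) ^ 2 := by ring
    rw [this, hv, ← pow_mul]
    have : (l + 1) * 2 = (2 * l + 1) + 1 := by ring
    rw [this, pow_succ, h, one_mul]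

/-- fourth powers, `p = 1 mod 4` -/
theorem four_b {k : Type} [Field k] [IsAlgClosed k] {p : ℕ} (hp : 1 ≤ p) (h4 : p % 4 = 1)
    {s : k} (hs : s ≠ 0) (h : s ^ ((p - 1) / 4) = 1) :
    ∃ v : k, v ≠ 0 ∧ v ^ p = v ∧ v ^ 4 = s := by
  obtain ⟨v, hv⟩ := IsAlgClosed.exists_pow_nat_eq s (n := 4) (by norm_num)
  refine ⟨v, ne_zero_of_pow four_ne_zero hs hv, ?_, hv⟩
  apply pow_of_pred hp
  have : p - 1 = 4 * ((p - 1) / 4) := by omega
  rw [this, pow_mul, hv, h]

theorem half_four {k : Type} [Field k] {p : ℕ} (hp : 1 ≤ p) (h2 : p % 2 = 1) {s : k} (hs : s ≠ 0)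
    (hf : s ^ p = s) : (s ^ ((p - 1) / 2)) ^ 4 = 1 := by
  rw [← pow_mul]
  have : (p - 1) / 2 * 4 = (p - 1) * 2 := by omega
  rw [this, pow_mul, pow_pred hp hs hf, one_pow]

theorem odd_p {p : ℕ} [Fact p.Prime] (h5 : 5 ≤ p) : p % 2 = 1 := by
  have hpp : p.Prime := Fact.out
  exact Nat.odd_iff.1 (hpp.odd_of_ne_two (by omega))

end UServe

open UServe in
theorem ucls_four {k : Type} [Field k] {p : ℕ} [Fact p.Prime] (h5 : 5 ≤ p) {a b : k}
    (hd : dsc a b ≠ 0) (ha : a ^ p = a) (hb : b ^ p = b) : ucls p a b ^ 4 = 1 := by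
  have hp1 : 1 ≤ p := by omega
  have h2 := odd_p h5
  unfold ucls
  split_ifs with h0 h1 h4
  · have hb0 : b ≠ 0 := by
      rintro rfl
      apply hd
      rw [h0]
      simp [dsc]
    exact half_four hp1 h2 hb0 hb
  · rw [← pow_mul]
    have : (p - 1) / 4 * 4 = p - 1 := by omega
    rw [this]
    exact pow_pred hp1 h0 ha
  · exact half_four hp1 h2 h0 ha
  · exact half_four hp1 h2 (div_ne_zero h1 h0) (by rw [div_pow, ha, hb])

open UServe in
theorem ucls_iso {k : Type} [Field k] [IsAlgClosed k] (p : ℕ) [Fact p.Prime] [CharP k p]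
    (h5 : 5 ≤ p) (h3 : p % 3 = 2) {a b a' b' : k} (hd : dsc a b ≠ 0) (hd' : dsc a' b' ≠ 0)
    (hj : jinv a b = jinv a' b') (hc : ucls p a b = ucls p a' b') :
    ∃ v : k, v ≠ 0 ∧ v ^ p = v ∧ v ^ 4 * a = a' ∧ v ^ 6 * b = b' := by
  have hp1 : 1 ≤ p := by omega
  have hp2 := odd_p h5
  have h2' : (2 : k) ≠ 0 := by
    intro h
    have h' : ((2 : ℕ) : k) = 0 := by exact_mod_cast h
    have := Nat.le_of_dvd (by norm_num) ((CharP.cast_eq_zero_iff k p 2).mp h')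
    omega
  have h3' : (3 : k) ≠ 0 := by
    intro h
    have h' : ((3 : ℕ) : k) = 0 := by exact_mod_cast h
    have := Nat.le_of_dvd (by norm_num) ((CharP.cast_eq_zero_iff k p 3).mp h')
    omega
  have hk := PJinv.key h2' h3' hd hd' hj
  have dz : ∀ {x y : k}, dsc x y ≠ 0 → x = 0 → y ≠ 0 := by
    rintro x y h rfl rfl
    exact h (by simp [dsc])
  by_cases ha : a = 0
  · have hb : b ≠ 0 := dz hd ha
    have ha' : a' = 0 := by
      rw [ha, zero_pow three_ne_zero, zero_mul] at hk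
      rcases mul_eq_zero.mp hk.symm with h | h
      · exact (pow_eq_zero_iff (by norm_num)).mp h
      · exact absurd ((pow_eq_zero_iff (by norm_num)).mp h) hb
    have hb' : b' ≠ 0 := dz hd' ha'
    unfold ucls at hc
    rw [if_pos ha, if_pos ha'] at hc
    obtain ⟨v, hv, hvp, hv6⟩ := six hp1 hp2 h3 (s := b' / b) (div_ne_zero hb' hb) (by
      rw [div_pow, ← hc, div_self]
      exact pow_ne_zero _ hb)
    refine ⟨v, hv, hvp, ?_, ?_⟩
    · rw [ha, ha', mul_zero]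
    · rw [hv6]
      field_simp
  have ha' : a' ≠ 0 := by
    intro h0
    rw [h0, zero_pow three_ne_zero, zero_mul] at hk
    rcases mul_eq_zero.mp hk with h | h
    · exact ha ((pow_eq_zero_iff (by norm_num)).mp h)
    · exact dz hd' h0 ((pow_eq_zero_iff (by norm_num)).mp h)
  by_cases hb : b = 0
  · have hb' : b' = 0 := by
      rw [hb, zero_pow two_ne_zero, mul_zero] at hk
      rcases mul_eq_zero.mp hk with h | h
      · exact absurd ((pow_eq_zero_iff (by norm_num)).mp h) ha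
      · exact (pow_eq_zero_iff (by norm_num)).mp h
    unfold ucls at hc
    rw [if_neg ha, if_neg ha', if_pos hb, if_pos hb'] at hc
    have hs : a' / a ≠ 0 := div_ne_zero ha' ha
    obtain ⟨v, hv, hvp, hv4⟩ : ∃ v : k, v ≠ 0 ∧ v ^ p = v ∧ v ^ 4 = a' / a := by
      by_cases h4 : p % 4 = 1
      · rw [if_pos h4] at hc
        exact four_b hp1 h4 hs (by
          rw [div_pow, ← hc, div_self]
          exact pow_ne_zero _ ha)
      · rw [if_neg h4] at hc
        exact four_a hp1 (by omega) hs (by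
          rw [div_pow, ← hc, div_self]
          exact pow_ne_zero _ ha)
    refine ⟨v, hv, hvp, ?_, ?_⟩
    · rw [hv4]
      field_simp
    · rw [hb, hb', mul_zero]
  have hb' : b' ≠ 0 := by
    intro h0
    rw [h0, zero_pow two_ne_zero, mul_zero] at hk
    rcases mul_eq_zero.mp hk.symm with h | h
    · exact ha' ((pow_eq_zero_iff (by norm_num)).mp h)
    · exact hb ((pow_eq_zero_iff (by norm_num)).mp h)
  unfold ucls at hc
  rw [if_neg ha, if_neg ha', if_neg hb, if_neg hb'] at hc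
  exact jinv_iso_fp p h5 hd hd' ha hb ha' hb' hj hc

theorem u_serve {p : ℕ} [Fact p.Prime] (h5 : 5 ≤ p) (h3 : p % 3 = 2) {d : ℕ} (hd : 0 < d)
    (h4 : ¬ 4 ∣ d) (h3d : ¬ 3 ∣ d) {j : ℚ} (A : Finset ℕ) {T : ℝ} (hT : 0 ≤ T)
    (hA : ∀ m ∈ A, 0 < m ∧ (m : ℝ) ≤ T ∧ ¬ p ∣ d * m ∧
      ∃ L : AddSubgroup (Pt (0 : Fb p) (-31 / 4)), RedL p (d * m) j L) :
    (A.card : ℝ) ≤ 12 * 2 ^ d.primeFactors.card * (1 + 12 * T / Real.sqrt p) := by
  classical
  have hpp : p.Prime := Fact.out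
  have hR0 : 0 ≤ 1 + 12 * T / Real.sqrt p := by
    have := Real.sqrt_nonneg (p : ℝ)
    positivity
  rcases A.eq_empty_or_nonempty with rfl | hne
  · rw [Finset.card_empty, Nat.cast_zero]
    positivity
  have hpd : ¬ p ∣ d := by
    obtain ⟨m, hm⟩ := hne
    intro h
    exact (hA m hm).2.2.1 (h.mul_right m)
  -- the subgroups
  have hL : ∀ m : ℕ, ∃ L : AddSubgroup (Pt (0 : Fb p) (-31 / 4)), m ∈ A → RedL p (d * m) j L := by
    intro m
    by_cases hm : m ∈ A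
    · obtain ⟨L, hL⟩ := (hA m hm).2.2.2
      exact ⟨L, fun _ => hL⟩
    · exact ⟨⊥, fun h => absurd h hm⟩
  choose L hL using hL
  have hL' : ∀ m : ℕ, ∃ L' : AddSubgroup (Pt (0 : Fb p) (-31 / 4)), m ∈ A →
      L' ∈ StabG (F0 p) d ∧ L' ≤ L m := by
    intro m
    by_cases hm : m ∈ A
    · have hR := hL m hm
      have hm0 := (hA m hm).1
      obtain ⟨L', h1, h2⟩ := cyc_sub (n := d * m) (d := d) (Nat.mul_pos hd hm0) (Dvd.intro m rfl)
        hR.cyc
      refine ⟨L', fun _ => ⟨⟨h1, ?_⟩, fun P hP => ((h2 P).mp hP).1⟩⟩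
      intro P hP
      rw [h2] at hP ⊢
      refine ⟨hR.frob P hP.1, ?_⟩
      rw [← map_nsmul, hP.2, map_zero]
    · exact ⟨⊥, fun h => absurd h hm⟩
  choose L' hL' using hL'
  -- the classes
  let c : ℕ → Fb p := fun m => ucls p (vA 0 (-31 / 4) (L m)) (vB 0 (-31 / 4) (L m))
  set C : Finset (Fb p) := (Polynomial.nthRoots 4 (1 : Fb p)).toFinset with hC
  have hCcard : C.card ≤ 4 :=
    (Multiset.toFinset_card_le _).trans (Polynomial.card_nthRoots 4 (1 : Fb p))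
  have hfinS : (StabG (F0 p) d).Finite := by
    rw [← Set.encard_lt_top_iff]
    refine lt_of_le_of_lt (stab_card h5 h3 hd h4 h3d hpd) ?_
    have : (3 : ℕ∞) * 2 ^ d.primeFactors.card = ((3 * 2 ^ d.primeFactors.card : ℕ) : ℕ∞) := by
      push_cast
      rfl
    rw [this]
    exact ENat.natCast_lt_top _
  have hcardS : hfinS.toFinset.card ≤ 3 * 2 ^ d.primeFactors.card := by
    have h1 := stab_card h5 h3 hd h4 h3d hpd
    rw [hfinS.encard_eq_coe_toFinset_card] at h1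
    exact_mod_cast h1
  have hVel : ∀ m ∈ A, VeluOK (0 : Fb p) (-31 / 4) (L m) := fun m hm =>
    ((hL m hm).chain (L m) le_rfl).2.1
  have hjL : ∀ m ∈ A, jinv (vA (0 : Fb p) (-31 / 4) (L m)) (vB 0 (-31 / 4) (L m)) = (j : Fb p) :=
    fun m hm => (hL m hm).jj
  have hfinL : ∀ m ∈ A, Finite (L m) := by
    intro m hm
    obtain ⟨T, hT, hLT⟩ := (hL m hm).cyc
    apply Nat.finite_of_card_ne_zero
    rw [hLT, Nat.card_zmultiples, hT]
    exact (Nat.mul_pos hd (hA m hm).1).ne'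
  have hcls : ∀ m ∈ A, c m ∈ C := by
    intro m hm
    obtain ⟨h6, h7⟩ := vel_fix (hfinL m hm) (hL m hm).frob
    rw [hC, Multiset.mem_toFinset, Polynomial.mem_nthRoots (by norm_num)]
    exact ucls_four h5 (hVel m hm).1 h6 h7
  let f : ℕ → AddSubgroup (Pt (0 : Fb p) (-31 / 4)) × Fb p := fun m => (L' m, c m)
  have hmaps : ∀ m ∈ A, f m ∈ hfinS.toFinset ×ˢ C := by
    intro m hm
    rw [Finset.mem_product]
    exact ⟨by rw [Set.Finite.mem_toFinset]; exact (hL' m hm).1, hcls m hm⟩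
  have hfib : ∀ b ∈ hfinS.toFinset ×ˢ C,
      (A.filter (fun m => f m = b)).card ≤ ⌊1 + 12 * T / Real.sqrt p⌋₊ := by
    intro b _
    apply Nat.le_floor
    rcases (A.filter (fun m => f m = b)).eq_empty_or_nonempty with he | ⟨m₀, hm₀⟩
    · rw [he, Finset.card_empty, Nat.cast_zero]
      exact hR0
    rw [Finset.mem_filter] at hm₀
    obtain ⟨hm₀A, hm₀b⟩ := hm₀
    obtain ⟨hfa, hfb⟩ := vel_fix (hfinL m₀ hm₀A) (hL m₀ hm₀A).frob
    have hcardL' : Nat.card (L' m₀) = d := by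
      obtain ⟨T, hT, hLT⟩ := (hL' m₀ hm₀A).1.1
      rw [hLT, Nat.card_zmultiples, hT]
    refine k_group p (ha := frob_zero p) (hb := frob_quarter p) (ha' := hfa) (hb' := hfb) h5
      (e0_dsc h5 h3) (hVel m₀ hm₀A).1 (fun P => F0_sq h5 h3 P)
      (fun P hP => e0_no_tors h5 h3 hP) (L' := L' m₀) hd hpd hcardL' _ hT ?_
    intro m hm
    rw [Finset.mem_filter] at hm
    obtain ⟨hmA, hmb⟩ := hm
    have hff : f m = f m₀ := hmb.trans hm₀b.symm
    have hLL : L' m = L' m₀ := congrArg Prod.fst hff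
    have hcc : c m = c m₀ := congrArg Prod.snd hff
    obtain ⟨v, hv, hvp, hva, hvb⟩ := ucls_iso p h5 h3 (hVel m hmA).1 (hVel m₀ hm₀A).1
      ((hjL m hmA).trans (hjL m₀ hm₀A).symm) hcc
    obtain ⟨φ, Φ, hC, hI, hK, hF, hker, hhφ⟩ := k_vel h5 h3 (hfinL m hmA) (hL m hmA).frob
      (hVel m hmA) hv hvp hva hvb hfa hfb
    refine ⟨(hA m hmA).2.1, φ, 1 / v, Φ, one_div_ne_zero hv, ⟨hI, ⟨1 / v, ?_, hC⟩, Φ, hK, hF⟩,
      hC, hK, ?_, ?_, ?_⟩
    · rw [div_pow, one_pow, hvp]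
    · rw [hker]
      obtain ⟨T, hT, hLT⟩ := (hL m hmA).cyc
      rw [hLT]
      infer_instance
    · intro P hP
      rw [← hLL] at hP
      have h1 : P ∈ Φ.ker := by
        rw [hker]
        exact (hL' m hmA).2 hP
      exact h1
    · rw [hhφ]
      obtain ⟨T, hT, hLT⟩ := (hL m hmA).cyc
      rw [hLT, Nat.card_zmultiples, hT]
  have hmain := Finset.card_le_mul_card_image_of_maps_to hmaps _ hfib
  rw [Finset.card_product] at hmain
  have hmain2 : A.card ≤ ⌊1 + 12 * T / Real.sqrt p⌋₊ * ((3 * 2 ^ d.primeFactors.card) * 4) :=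
    hmain.trans (Nat.mul_le_mul_left _ (Nat.mul_le_mul hcardS hCcard))
  have hfl : ((⌊1 + 12 * T / Real.sqrt p⌋₊ : ℕ) : ℝ) ≤ 1 + 12 * T / Real.sqrt p :=
    Nat.floor_le hR0
  calc (A.card : ℝ) ≤ ((⌊1 + 12 * T / Real.sqrt p⌋₊ * ((3 * 2 ^ d.primeFactors.card) * 4) : ℕ) : ℝ) := by
        exact_mod_cast hmain2
    _ = ((⌊1 + 12 * T / Real.sqrt p⌋₊ : ℕ) : ℝ) * ((3 * 2 ^ d.primeFactors.card) * 4) := by
        push_cast
        ring
    _ ≤ (1 + 12 * T / Real.sqrt p) * ((3 * 2 ^ d.primeFactors.card) * 4) := by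
        apply mul_le_mul_of_nonneg_right hfl
        positivity
    _ = 12 * 2 ^ d.primeFactors.card * (1 + 12 * T / Real.sqrt p) := by ring

end LT
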