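import Pool.Agent.Lib_MP_f1937f_un.Nu
import Pool.Agent.Lib_MP_f1937f_un.Serve
import Pool.Agent.Lib_MP_f1937f_un.Core
import Pool.Agent.Lib_MP_f1937f_nt.KCount2

/-!
# MP_f1937f_nt, uniform theorem: the counting inequality (piece UCOUNT)

The same proof as `k_count2` with explicit constants. The primes `p` which serve a pair are good supersingular primes or lie in `bW W`:
they divide `Δ`, `p = 2 mod 3`, and `j` is integral at `p`.
-/

namespace LT

open Polynomial WeierstrassCurve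

/-- The primes `p = 2 mod 3` which divide `Δ` and at which `j` is integral. -/
noncomputable def bW (W : WeierstrassCurve ℤ) : Finset ℕ :=
  W.Δ.natAbs.primeFactors.filter fun p => p % 3 = 2 ∧ 0 ≤ padicValRat p (jW W)

open Classical in
theorem u_count : ∃ K c c₀ B x₀ : ℝ, 1 ≤ K ∧ 0 < c ∧ 0 < c₀ ∧ c₀ ≤ 1 ∧ 1 ≤ B ∧
    ∀ W : WeierstrassCurve ℤ, W.Δ ≠ 0 → NoCM W → ∃ lo η : ℝ, 1 ≤ lo ∧
    lo ≤ 4 * (1 + Real.log (2 + |((jW W : ℚ) : ℝ)|)) ∧
    c₀ * min 1 |1728 - ((jW W : ℚ) : ℝ)| ≤ η ∧ 0 < η ∧ η ≤ 1 / 120 ∧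
    ∀ Y M : ℕ, 0 < M → Odd M → ¬ 3 ∣ M →
      (∀ p : ℕ, p.Prime → p % 3 = 2 → (p ∈ SS W Y ∨ (p ∈ bW W ∧ p ≤ Y) ∨
        p ∣ 22 * M) → KilledBy p M) →
      ∀ V : ℝ, x₀ ≤ V → (K * lo / η ^ 2) ^ 2 * M ≤ V → ∀ X : ℕ,
        Real.exp (B * (1 + Real.log (|((jW W).num : ℝ)| + (jW W).den)) * M * V *
          Real.log V ^ 2) ≤ X →
        c * η ^ 4 * V / Real.log V ^ 4 ≤ 2 ^ M.primeFactors.card *
          ∑ p ∈ (SS W X ∪ bW W).filter (fun p => Y < p),
            (1 + 12 * V / Real.sqrt p) := by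
  obtain ⟨c₀, B, hc₀, hc₀1, hB, H₀⟩ := u_core
  obtain ⟨K₁, c₁, V₁, hK₁, hc₁, H₁⟩ := u_nu
  refine ⟨4 * K₁, c₁ / 48, c₀, 352 * B, max V₁ 22, by linarith, by positivity, hc₀, hc₀1,
    by linarith, fun W hΔ hCM => ?_⟩
  obtain ⟨h, lo, η, hh, hlo, hlo', hη, hη0, hη1, H⟩ := H₀ W hΔ hCM
  refine ⟨lo, η, hlo, hlo', hη, hη0, hη1, ?_⟩
  intro Y M hM hMo hM3 hkill V hV hCV X hX
  set C₀ : ℝ := B * (1 + Real.log (|((jW W).num : ℝ)| + (jW W).den)) with hC₀def
  have hC₀ : 0 < C₀ := by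
    have h1 : (1 : ℝ) ≤ |((jW W).num : ℝ)| + (jW W).den := by
      have h2 : (1 : ℝ) ≤ (jW W).den := by exact_mod_cast (jW W).den_pos
      have := abs_nonneg ((jW W).num : ℝ)
      linarith
    have := Real.log_nonneg h1
    positivity
  have hM0 : (0 : ℝ) < M := by exact_mod_cast hM
  have hM1 : (1 : ℝ) ≤ M := by exact_mod_cast hM
  have hV22 : 22 ≤ V := (le_max_right _ _).trans hV
  have hV0 : 0 < V := by linarith
  have hbase : 1 ≤ K₁ * lo / η ^ 2 := by
    rw [le_div_iff₀ (by positivity)]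
    nlinarith
  have hCV' : (K₁ * lo / η ^ 2) ^ 2 * ((11 * M : ℕ) : ℝ) ≤ V := by
    refine le_trans ?_ hCV
    push_cast
    have e : (4 * K₁ * lo / η ^ 2) ^ 2 = 16 * (K₁ * lo / η ^ 2) ^ 2 := by ring
    rw [e]
    have : 0 ≤ (K₁ * lo / η ^ 2) ^ 2 * M := by positivity
    nlinarith
  have hMV : (M : ℝ) ≤ V := by
    refine le_trans ?_ hCV'
    push_cast
    have : 1 ≤ (K₁ * lo / η ^ 2) ^ 2 := one_le_pow₀ hbase
    nlinarith
  have hlogV : 0 < Real.log V := Real.log_pos (by linarith)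
  have hh0 : 0 < h := by rcases hh with rfl | rfl <;> norm_num
  have hh2 : h ≤ 2 := by rcases hh with rfl | rfl <;> norm_num
  obtain ⟨S, hS, hScard⟩ := H₁ lo η hlo hη0 (by linarith) (11 * M) V (by positivity)
    ((le_max_left _ _).trans hV) hCV'
  set d : ℕ := h * (11 * M) with hd
  have hd0 : 0 < d := by positivity
  have hd4 : ¬ 4 ∣ d := by
    intro h0
    rw [hd] at h0
    have h1 : (11 * M) % 2 = 1 := by
      have := Nat.odd_iff.1 hMo
      omega
    rcases hh with rfl | rfl <;> omega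
  have hd3 : ¬ 3 ∣ d := by
    intro h0
    rw [hd] at h0
    rcases (Nat.Prime.dvd_mul Nat.prime_three).1 h0 with h1 | h1
    · rcases hh with rfl | rfl <;> omega
    · rcases (Nat.Prime.dvd_mul Nat.prime_three).1 h1 with h2 | h2
      · omega
      · exact hM3 h2
  -- every pair is served by a prime
  have key : ∀ q : ℕ × ℕ, ∃ p : ℕ, q ∈ S → ∃ _ : Fact p.Prime, 5 ≤ p ∧ p % 3 = 2 ∧
      p ∈ (SS W X ∪ bW W).filter (fun p => Y < p) ∧
      ¬ p ∣ d * (q.1 * q.2) ∧
      ∃ L : AddSubgroup (Pt (0 : Fb p) (-31 / 4)), RedL p (d * (q.1 * q.2)) (jW W) L := by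
    intro q
    by_cases hq : q ∈ S
    swap
    · exact ⟨0, fun h0 => absurd h0 hq⟩
    obtain ⟨hm0, hmp, hQ, hQ3, hw1, hw2, hmQV⟩ := hS q hq
    obtain ⟨m, Q⟩ := q
    simp only at hm0 hmp hQ hQ3 hw1 hw2 hmQV
    have hm2 : ¬ 2 ∣ m := by
      intro h0
      have := hmp 2 Nat.prime_two h0
      omega
    have hm3 : ¬ 3 ∣ m := by
      intro h0
      have := hmp 3 Nat.prime_three h0
      omega
    have hMm0 : 0 < 11 * M * m := by positivity
    have hMm0' : (0 : ℝ) < ((11 * M * m : ℕ) : ℝ) := by exact_mod_cast hMm0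
    have hQgt : 11 * M * m < Q := by
      rw [lt_div_iff₀ hMm0'] at hw1
      have h1 : ((11 * M * m : ℕ) : ℝ) < (Q : ℝ) := by nlinarith
      exact_mod_cast h1
    have hQn : ¬ Q ∣ 11 * M * m := by
      intro h0
      have := Nat.le_of_dvd hMm0 h0
      omega
    have kill_mono : ∀ p : ℕ, KilledBy p M → KilledBy p (11 * M * m) := by
      rintro p ⟨q, h1, h2, h3, h4⟩
      exact ⟨q, h1, Dvd.dvd.mul_right (Dvd.dvd.mul_left h2 _) _, h3, h4⟩
    obtain ⟨p, hpf, hp5, hp3, hnk, hpn, hjv, haff, hlog, L, hL⟩ := H (11 * M * m) Q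
      (by
        rw [Nat.odd_mul, Nat.odd_mul]
        refine ⟨⟨by decide, hMo⟩, ?_⟩
        rw [← Nat.not_even_iff_odd, even_iff_two_dvd]
        exact hm2)
      (by
        intro h0
        rcases (Nat.Prime.dvd_mul Nat.prime_three).1 h0 with h1 | h1
        · rcases (Nat.Prime.dvd_mul Nat.prime_three).1 h1 with h2 | h2
          · omega
          · exact hM3 h2
        · exact hm3 h1)
      (Dvd.intro (M * m) (by ring)) hQ hQ3 hQn hw1 hw2
      (by
        intro p hp hp3 h1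
        apply kill_mono
        apply hkill p hp hp3
        right
        right
        rcases hp.dvd_mul.1 h1 with h2 | h2
        · exact Dvd.dvd.mul_right (h2.trans (by norm_num)) _
        · rcases hp.dvd_mul.1 h2 with h3 | h3
          · rcases hp.dvd_mul.1 h3 with h4 | h4
            · exact Dvd.dvd.mul_right (h4.trans (by norm_num)) _
            · exact Dvd.dvd.mul_left h4 _
          · have := hmp p hp h3
            omega)
    have hp := hpf.out
    have hn' : h * (11 * M * m * Q) = d * (m * Q) := by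
      rw [hd]
      ring
    rw [hn'] at hpn hlog hL
    have hnpos : 0 < d * (m * Q) := Nat.mul_pos hd0 (Nat.mul_pos hm0 hQ.pos)
    have hnV : ((d * (m * Q) : ℕ) : ℝ) ≤ 22 * M * V := by
      rw [Nat.cast_mul]
      have h1 : ((d : ℕ) : ℝ) ≤ 22 * M := by
        have : d ≤ 22 * M := by
          rw [hd]
          nlinarith
        exact_mod_cast this
      exact mul_le_mul h1 hmQV (Nat.cast_nonneg _) (by positivity)
    have hsz := KCount.size_aux hC₀ hV22 hM hnpos hMV hnV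
    have hpX : p ≤ X := by
      have h1 : (p : ℝ) ≤ X := by
        have hp0 : (0 : ℝ) < p := by exact_mod_cast hp.pos
        calc (p : ℝ) = Real.exp (Real.log p) := (Real.exp_log hp0).symm
          _ ≤ Real.exp (352 * B * (1 + Real.log (|((jW W).num : ℝ)| + (jW W).den)) * M * V *
              Real.log V ^ 2) := by
              apply Real.exp_le_exp.2
              refine hlog.trans (hsz.trans (le_of_eq ?_))
              rw [hC₀def]
              ring
          _ ≤ X := hX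
      exact_mod_cast h1
    refine ⟨p, fun _ => ⟨hpf, hp5, hp3, ?_, hpn, L, hL⟩⟩
    rw [Finset.mem_filter, Finset.mem_union]
    by_cases hbad : (p : ℤ) ∣ W.Δ
    · have hmem : p ∈ bW W := by
        rw [bW, Finset.mem_filter, Nat.mem_primeFactors]
        exact ⟨⟨hp, Int.natCast_dvd.1 hbad, Int.natAbs_ne_zero.2 hΔ⟩, hp3, hjv⟩
      refine ⟨Or.inr hmem, ?_⟩
      by_contra hcon
      push Not at hcon
      exact hnk (kill_mono p (hkill p hp hp3 (Or.inr (Or.inl ⟨hmem, hcon⟩))))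
    · have hmem : ∀ Z : ℕ, p ≤ Z → p ∈ SS W Z := by
        intro Z hZ
        rw [SS, Finset.mem_filter, Finset.mem_range]
        exact ⟨by omega, hp, hbad, haff hbad⟩
      refine ⟨Or.inl (hmem X hpX), ?_⟩
      by_contra hcon
      push Not at hcon
      exact hnk (kill_mono p (hkill p hp hp3 (Or.inl (hmem Y hcon))))
  choose f hf using key
  set R : Finset ℕ := (SS W X ∪ bW W).filter (fun p => Y < p) with hR
  have hmaps : ∀ q ∈ S, f q ∈ R := by
    intro q hq
    obtain ⟨_, -, -, h1, -⟩ := hf q hq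
    exact h1
  have hinj : ∀ q ∈ S, ∀ q' ∈ S, q.1 * q.2 = q'.1 * q'.2 → q = q' := by
    rintro ⟨m, Q⟩ hq ⟨m', Q'⟩ hq' heq
    simp only at heq
    have aux : ∀ q ∈ S, q.1 < q.2 := by
      intro q hq
      obtain ⟨hm0, -, -, -, hw1, -, -⟩ := hS q hq
      have hMm0 : 0 < 11 * M * q.1 := by positivity
      have hMm0' : (0 : ℝ) < ((11 * M * q.1 : ℕ) : ℝ) := by exact_mod_cast hMm0
      rw [lt_div_iff₀ hMm0'] at hw1
      have h1 : ((11 * M * q.1 : ℕ) : ℝ) < (q.2 : ℝ) := by nlinarith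
      have h2 : 11 * M * q.1 < q.2 := by exact_mod_cast h1
      have h3 : q.1 ≤ 11 * M * q.1 := Nat.le_mul_of_pos_left _ (by positivity)
      omega
    obtain ⟨h1, h2⟩ := KCount.pair_inj (hS _ hq).2.2.1 (hS _ hq').2.2.1 (hS _ hq).1 (hS _ hq').1
      (aux _ hq) (aux _ hq') heq
    simp only at h1 h2
    rw [h1, h2]
  have hfib : ∀ p ∈ R, ((S.filter (fun q => f q = p)).card : ℝ) ≤
      48 * 2 ^ M.primeFactors.card * (1 + 12 * V / Real.sqrt p) := by
    intro p _
    have hpos : 0 ≤ 1 + 12 * V / Real.sqrt p := by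
      have := Real.sqrt_nonneg (p : ℝ)
      positivity
    rcases (S.filter (fun q => f q = p)).eq_empty_or_nonempty with he | ⟨q₀, hq₀⟩
    · rw [he, Finset.card_empty, Nat.cast_zero]
      positivity
    rw [Finset.mem_filter] at hq₀
    obtain ⟨hq₀S, rfl⟩ := hq₀
    obtain ⟨hpf, hp5, hp3, -, -, -⟩ := hf q₀ hq₀S
    have hcardA : ((S.filter (fun q => f q = f q₀)).image (fun q => q.1 * q.2)).card =
        (S.filter (fun q => f q = f q₀)).card := by
      apply Finset.card_image_of_injOn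
      intro q hq q' hq' heq
      exact hinj q (Finset.mem_filter.1 hq).1 q' (Finset.mem_filter.1 hq').1 heq
    have hserve := u_serve hp5 hp3 hd0 hd4 hd3 (j := jW W)
      ((S.filter (fun q => f q = f q₀)).image (fun q => q.1 * q.2)) (T := V) hV0.le (by
        intro ν hν
        rw [Finset.mem_image] at hν
        obtain ⟨q, hq, rfl⟩ := hν
        rw [Finset.mem_filter] at hq
        obtain ⟨hqS, hqf⟩ := hq
        obtain ⟨hm0, -, hQ, -, -, -, hmQV⟩ := hS q hqS
        obtain ⟨hpf', -, -, -, h1, L, hL⟩ := hf q hqS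
        refine ⟨Nat.mul_pos hm0 hQ.pos, hmQV, ?_, ?_⟩
        · rw [← hqf]
          exact h1
        · have aux : ∀ (a b : ℕ) (ha : Fact a.Prime) (hb : Fact b.Prime), a = b →
              (∃ L : AddSubgroup (Pt (0 : Fb a) (-31 / 4)), RedL a (d * (q.1 * q.2)) (jW W) L) →
              ∃ L : AddSubgroup (Pt (0 : Fb b) (-31 / 4)), RedL b (d * (q.1 * q.2)) (jW W) L := by
            rintro a b ha hb rfl h0
            exact h0
          exact aux _ _ hpf' hpf hqf ⟨L, hL⟩)
    rw [hcardA] at hserve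
    refine hserve.trans ?_
    apply mul_le_mul_of_nonneg_right _ hpos
    have h1 : (2 : ℝ) ^ d.primeFactors.card ≤ 2 ^ (M.primeFactors.card + 2) :=
      pow_le_pow_right₀ (by norm_num) (KCount.omega_aux hh hM)
    calc 12 * (2 : ℝ) ^ d.primeFactors.card ≤ 12 * 2 ^ (M.primeFactors.card + 2) :=
          mul_le_mul_of_nonneg_left h1 (by norm_num)
      _ = 48 * 2 ^ M.primeFactors.card := by rw [pow_add]; ring
  have hcard : (S.card : ℝ) ≤ ∑ p ∈ R, 48 * 2 ^ M.primeFactors.card * (1 + 12 * V / Real.sqrt p) := by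
    rw [Finset.card_eq_sum_card_fiberwise (f := f) (t := R) hmaps]
    push_cast
    exact Finset.sum_le_sum hfib
  rw [← Finset.mul_sum] at hcard
  have h1 := hScard.trans hcard
  have e : c₁ / 48 * η ^ 4 * V / Real.log V ^ 4 = (c₁ * η ^ 4 * V / Real.log V ^ 4) / 48 := by ring
  rw [e, div_le_iff₀ (by norm_num)]
  linarith

end LT
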