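import Pool.Agent.Lib_MP_f1937f_nt.SLim

/-!
# MP_f1937f_nt, uniform theorem: bounds for `q j(τ)` (piece UGG)
-/

namespace LT.Sgn.SLim

open Polynomial WeierstrassCurve PeriodPair Filter Topology UpperHalfPlane ModularForm

theorem u_q_eq (τ : ℍ) : Complex.exp (2 * (Real.pi : ℂ) * Complex.I * (τ : ℂ)) =
    Function.Periodic.qParam 1 (τ : ℂ) := by
  rw [Function.Periodic.qParam, Complex.ofReal_one, div_one]

theorem u_E4 (τ : ℍ) {r : ℝ} (hr0 : 0 ≤ r) (hr : ‖Function.Periodic.qParam 1 (τ : ℂ)‖ ≤ r)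
    (h16 : 16 * r < 1) : ‖E₄ τ - 1‖ ≤ 240 * (r / (1 - 16 * r)) := by
  have h := EisensteinSeries.q_expansion_bernoulli (k := 4) (by norm_num) ⟨2, rfl⟩ τ
  have hb : (bernoulli 4 : ℚ) = -1 / 30 := by
    rw [bernoulli_eq_bernoulli'_of_ne_one (by norm_num), bernoulli'_four]
  have h1 : E₄ τ - 1 = 240 * ∑' n : ℕ, (ArithmeticFunction.sigma 3 (n + 1) : ℂ) *
      Function.Periodic.qParam 1 (τ : ℂ) ^ (n + 1) := by
    have h2 : E₄ τ = 1 - (2 * ((4 : ℕ) : ℂ) / ((bernoulli 4 : ℚ) : ℂ)) *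
        ∑' n : ℕ+, (ArithmeticFunction.sigma (4 - 1) n : ℂ) *
          Complex.exp (2 * (Real.pi : ℂ) * Complex.I * (τ : ℂ)) ^ ((n : ℕ) : ℤ) := h
    simp_rw [zpow_natCast, u_q_eq] at h2
    rw [tsum_pnat_eq_tsum_succ (f := fun n : ℕ => (ArithmeticFunction.sigma (4 - 1) n : ℂ) *
      Function.Periodic.qParam 1 (τ : ℂ) ^ n)] at h2
    rw [h2, hb]
    push_cast
    ring
  rw [h1, norm_mul]
  have h240 : ‖(240 : ℂ)‖ = 240 := by simp
  rw [h240]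
  apply mul_le_mul_of_nonneg_left _ (by norm_num)
  have hg : HasSum (fun n : ℕ => r * (16 * r) ^ n) (r * (1 - 16 * r)⁻¹) :=
    (hasSum_geometric_of_lt_one (by linarith) h16).mul_left r
  rw [div_eq_mul_inv]
  refine tsum_of_norm_bounded hg fun n => ?_
  rw [norm_mul, norm_pow, Complex.norm_natCast]
  have hs : (ArithmeticFunction.sigma 3 (n + 1) : ℝ) ≤ 16 ^ n := by
    have a1 : ArithmeticFunction.sigma 3 (n + 1) ≤ (n + 1) ^ 4 :=
      ArithmeticFunction.sigma_le_pow_succ 3 (n + 1)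
    have a2 : n + 1 ≤ 2 ^ n := Nat.lt_two_pow_self
    have a3 : (n + 1) ^ 4 ≤ 16 ^ n := by
      calc (n + 1) ^ 4 ≤ (2 ^ n) ^ 4 := Nat.pow_le_pow_left a2 4
        _ = 16 ^ n := by rw [← pow_mul, mul_comm, pow_mul]; norm_num
    exact_mod_cast a1.trans a3
  calc (ArithmeticFunction.sigma 3 (n + 1) : ℝ) * ‖Function.Periodic.qParam 1 (τ : ℂ)‖ ^ (n + 1)
      ≤ 16 ^ n * r ^ (n + 1) :=
        mul_le_mul hs (pow_le_pow_left₀ (norm_nonneg _) hr _) (by positivity) (by positivity)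
    _ = r * (16 * r) ^ n := by rw [mul_pow]; ring

/-- the product `∏ (1 - qⁿ)` -/
noncomputable def uP (τ : ℍ) : ℂ := ∏' n : ℕ, (1 - eta_q n τ)

theorem u_P (τ : ℍ) {r : ℝ} (hr : ‖Function.Periodic.qParam 1 (τ : ℂ)‖ ≤ r)
    (h1 : r < 1) : ‖uP τ - 1‖ ≤ Real.exp (r / (1 - r)) - 1 := by
  have hr0 : 0 ≤ r := (norm_nonneg _).trans hr
  have hm : Multipliable fun n : ℕ => 1 - eta_q n τ :=
    multipliable_one_sub_pow (lt_of_le_of_lt hr h1)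
  have ht := hm.hasProd
  have ht2 : Tendsto (fun s : Finset ℕ => ‖∏ n ∈ s, (1 - eta_q n τ) - 1‖) atTop
      (𝓝 ‖uP τ - 1‖) := (ht.sub_const 1).norm
  refine le_of_tendsto' ht2 fun s => ?_
  have h2 := Finset.norm_prod_one_add_sub_one_le s (fun n => -eta_q n τ)
  simp_rw [← sub_eq_add_neg] at h2
  refine h2.trans ?_
  gcongr
  have hg : HasSum (fun n : ℕ => r ^ (n + 1)) (r / (1 - r)) := by
    have := (hasSum_geometric_of_lt_one hr0 h1).mul_left r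
    rw [← div_eq_mul_inv] at this
    refine this.congr_fun ?_ |> id
    intro n
    ring
  refine le_trans (Finset.sum_le_sum fun n _ => ?_) (sum_le_hasSum s (fun n _ => by positivity) hg)
  rw [norm_neg, norm_pow]
  exact pow_le_pow_left₀ (norm_nonneg _) hr _

theorem u_pow_sub {x : ℂ} {δ : ℝ} (h : ‖x - 1‖ ≤ δ) (n : ℕ) : ‖x ^ n - 1‖ ≤ (1 + δ) ^ n - 1 := by
  have hδ : 0 ≤ δ := (norm_nonneg _).trans h
  have hx : ‖x‖ ≤ 1 + δ := by
    calc ‖x‖ = ‖1 + (x - 1)‖ := by ring_nf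
      _ ≤ ‖(1 : ℂ)‖ + ‖x - 1‖ := norm_add_le _ _
      _ ≤ 1 + δ := by rw [norm_one]; linarith
  induction n with
  | zero => simp
  | succ n ih =>
    have e : x ^ (n + 1) - 1 = x * (x ^ n - 1) + (x - 1) := by ring
    rw [e]
    calc ‖x * (x ^ n - 1) + (x - 1)‖ ≤ ‖x‖ * ‖x ^ n - 1‖ + ‖x - 1‖ := by
          rw [← norm_mul]
          exact norm_add_le _ _
      _ ≤ (1 + δ) * ((1 + δ) ^ n - 1) + δ := by
          apply add_le_add _ h
          exact mul_le_mul hx ih (norm_nonneg _) (by linarith)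
      _ = (1 + δ) ^ (n + 1) - 1 := by ring

theorem u_gg_eq (τ : ℍ) : gg τ = E₄ τ ^ 3 / uP τ ^ 24 := by
  unfold gg uP
  have hm : Multipliable fun n : ℕ => 1 - eta_q n τ :=
    multipliable_one_sub_pow (by simpa using norm_qParam_lt_one 1 τ)
  rw [hm.tprod_pow 24]

/-- bounds for `q j` -/
theorem u_gg_aux (τ : ℍ) {r a s : ℝ} (hr : ‖Function.Periodic.qParam 1 (τ : ℂ)‖ ≤ r)
    (h1 : r ≤ 1 / 100) (ha : 240 * (r / (1 - 16 * r)) ≤ a)
    (hs : Real.exp (24 * (r / (1 - r))) - 1 ≤ s) :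
    ‖E₄ τ - 1‖ ≤ a ∧ ‖uP τ ^ 24 - 1‖ ≤ s := by
  have hr0 : 0 ≤ r := (norm_nonneg _).trans hr
  refine ⟨(u_E4 τ hr0 hr (by linarith)).trans ha, ?_⟩
  refine (u_pow_sub (u_P τ hr (by linarith)) 24).trans (le_trans (le_of_eq ?_) hs)
  rw [add_sub_cancel, ← Real.exp_nat_mul]
  norm_num

theorem u_exp_le {x : ℝ} (hx : x < 1) : Real.exp x ≤ 1 / (1 - x) := by
  have h1 := Real.one_sub_le_exp_neg x
  rw [Real.exp_neg] at h1
  rw [le_div_iff₀ (by linarith)]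
  have h2 : Real.exp x * (Real.exp x)⁻¹ = 1 := mul_inv_cancel₀ (Real.exp_pos x).ne'
  have h3 := mul_le_mul_of_nonneg_left h1 (Real.exp_pos x).le
  rwa [h2] at h3

/-- `q j(τ)` is near to `1` -/
theorem u_gg_small (τ : ℍ) (hr : ‖Function.Periodic.qParam 1 (τ : ℂ)‖ ≤ 1 / 7000) :
    ‖gg τ - 1‖ ≤ 1 / 8 := by
  obtain ⟨h1, h2⟩ := u_gg_aux τ (a := 35 / 1000) (s := 4 / 1000) hr (by norm_num) (by norm_num) (by
    have := u_exp_le (x := 24 * ((1 : ℝ) / 7000 / (1 - 1 / 7000))) (by norm_num)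
    refine le_trans (sub_le_sub_right this 1) (by norm_num))
  have h3 := u_pow_sub h1 3
  set P := uP τ ^ 24 with hP
  have hPn : 1 - 4 / 1000 ≤ ‖P‖ := by
    have : ‖(1 : ℂ)‖ ≤ ‖P‖ + ‖P - 1‖ := by
      calc ‖(1 : ℂ)‖ = ‖P - (P - 1)‖ := by ring_nf
        _ ≤ _ := norm_sub_le _ _
    rw [norm_one] at this
    linarith
  have hP0 : P ≠ 0 := by
    intro h0
    rw [h0, norm_zero] at hPn
    norm_num at hPn
  have e : gg τ - 1 = ((E₄ τ ^ 3 - 1) - (P - 1)) / P := by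
    rw [u_gg_eq, ← hP]
    field_simp
    ring
  rw [e, norm_div, div_le_iff₀ (by linarith)]
  calc ‖(E₄ τ ^ 3 - 1) - (P - 1)‖ ≤ ‖E₄ τ ^ 3 - 1‖ + ‖P - 1‖ := norm_sub_le _ _
    _ ≤ ((1 + 35 / 1000) ^ 3 - 1) + 4 / 1000 := add_le_add h3 h2
    _ ≤ 1 / 8 * (1 - 4 / 1000) := by norm_num
    _ ≤ _ := by linarith

/-- `q j(τ)` is bounded -/
theorem u_gg_mid (τ : ℍ) (hr : ‖Function.Periodic.qParam 1 (τ : ℂ)‖ ≤ 48 / 10000) :
    ‖gg τ‖ ≤ 14 := by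
  obtain ⟨h1, h2⟩ := u_gg_aux τ (a := 125 / 100) (s := 132 / 1000) hr (by norm_num) (by norm_num) (by
    have := u_exp_le (x := 24 * ((48 : ℝ) / 10000 / (1 - 48 / 10000))) (by norm_num)
    refine le_trans (sub_le_sub_right this 1) (by norm_num))
  set P := uP τ ^ 24 with hP
  have hPn : 1 - 132 / 1000 ≤ ‖P‖ := by
    have : ‖(1 : ℂ)‖ ≤ ‖P‖ + ‖P - 1‖ := by
      calc ‖(1 : ℂ)‖ = ‖P - (P - 1)‖ := by ring_nf
        _ ≤ _ := norm_sub_le _ _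
    rw [norm_one] at this
    linarith
  have hE : ‖E₄ τ‖ ≤ 225 / 100 := by
    calc ‖E₄ τ‖ = ‖1 + (E₄ τ - 1)‖ := by ring_nf
      _ ≤ ‖(1 : ℂ)‖ + ‖E₄ τ - 1‖ := norm_add_le _ _
      _ ≤ 225 / 100 := by rw [norm_one]; linarith
  rw [u_gg_eq, ← hP, norm_div, norm_pow, div_le_iff₀ (by linarith)]
  calc ‖E₄ τ‖ ^ 3 ≤ (225 / 100) ^ 3 := pow_le_pow_left₀ (norm_nonneg _) hE 3
    _ ≤ 14 * (1 - 132 / 1000) := by norm_num
    _ ≤ _ := by linarith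

end LT.Sgn.SLim
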