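import Pool.Agent.Lib_MP_f1937f_un.Count
import Pool.Agent.Lib_MP_f1937f_nt.ACov

/-!
# MP_f1937f_nt, uniform theorem (piece UMAIN)

Proof. `x = H^z`, `t = log z`, `λ = c t / (log t)²`, `Y = ⌈exp λ⌉`, `X = ⌊x⌋`. Suppose `N(X) < exp (λ / 2000)`. The good supersingular
primes up to `Y` and the primes of `bW W` up to `Y` are at most `Y^(1/1000)` in number, so `cover_main` gives a modulus
`M ≤ exp (t / 16)` which kills them, `2^ω(M) ≤ Y^(1/16)`. `u_count` for `V = exp (3 t / 4)`: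
`c₂ η⁴ V / (log V)⁴ ≤ 2^ω(M) (N(X) + D) (1 + 12 V / √Y)`, `η ≥ c₀ / D`, `D ≤ exp (λ / 4000)`: a contradiction.
-/

namespace LT

open Polynomial WeierstrassCurve Real

/-- `A u (log t)² ≤ t` for `t ≥ C u (log u)²` -/
theorem u_asym1 (A : ℝ) : ∃ C : ℝ, 1 ≤ C ∧ ∀ u t : ℝ, log 16 ≤ u →
    C * u * (log u) ^ 2 ≤ t → A * u * (log t) ^ 2 ≤ t := by
  have e1 := (isLittleO_pow_log_id_atTop (n := 2)).bound
    (show (0 : ℝ) < 1 / (4 * (|A| + 1)) by positivity)
  obtain ⟨s₀, hs₀⟩ := Filter.eventually_atTop.1 e1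
  refine ⟨max (max s₀ 1) (36 * (|A| + 1)), (le_max_right _ _).trans (le_max_left _ _),
    fun u t hu ht => ?_⟩
  set C := max (max s₀ 1) (36 * (|A| + 1)) with hC
  have hC1 : 1 ≤ C := (le_max_right _ _).trans (le_max_left _ _)
  have hCs : s₀ ≤ C := (le_max_left _ _).trans (le_max_left _ _)
  have hCA : 36 * (|A| + 1) ≤ C := le_max_right _ _
  have hlog16 : (277 / 100 : ℝ) ≤ log 16 := by
    have h1 : (16 : ℝ) = 2 ^ 4 := by norm_num
    rw [h1, log_pow]
    have := log_two_gt_d9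
    push_cast
    linarith
  have hu1 : (277 / 100 : ℝ) ≤ u := hlog16.trans hu
  have hu0 : 0 < u := by linarith
  have hlu1 : 1 ≤ log u := by
    rw [le_log_iff_exp_le hu0]
    have := exp_one_lt_d9
    linarith
  have hlu0 : 0 < log u := by linarith
  set w := u * (log u) ^ 2 with hw
  have hw0 : 0 < w := by positivity
  set s := t / w with hs
  have hst : t = s * w := by
    rw [hs]
    field_simp
  have hsC : C ≤ s := by
    rw [hs, le_div_iff₀ hw0]
    calc C * w = C * u * (log u) ^ 2 := by rw [hw]; ring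
      _ ≤ t := ht
  have hs1 : 1 ≤ s := hC1.trans hsC
  have hs0 : 0 < s := by linarith
  have hls : 0 ≤ log s := log_nonneg hs1
  have hllu : log (log u) ≤ log u := by
    have := log_le_sub_one_of_pos hlu0
    linarith
  have hllu0 : 0 ≤ log (log u) := log_nonneg hlu1
  have hlt : log t = log s + log u + 2 * log (log u) := by
    rw [hst, hw, log_mul hs0.ne' (by positivity), log_mul hu0.ne' (by positivity), log_pow]
    push_cast
    ring
  have hlt2 : log t ≤ (log s + 3) * log u := by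
    rw [hlt]
    nlinarith
  have hlt0 : 0 ≤ log t := by
    rw [hlt]
    linarith
  have hsq : (log t) ^ 2 ≤ (log s + 3) ^ 2 * (log u) ^ 2 := by
    rw [← mul_pow]
    exact pow_le_pow_left₀ hlt0 hlt2 2
  have h2 := hs₀ s (hCs.trans hsC)
  rw [norm_of_nonneg (by positivity), id, norm_of_nonneg hs0.le] at h2
  have h3 : (|A| + 1) * (log s) ^ 2 ≤ s / 4 := by
    calc (|A| + 1) * (log s) ^ 2 ≤ (|A| + 1) * (1 / (4 * (|A| + 1)) * s) :=
          mul_le_mul_of_nonneg_left h2 (by positivity)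
      _ = s / 4 := by field_simp
  have hA0 : 0 ≤ |A| := abs_nonneg A
  have h4 : (|A| + 1) * (log s + 3) ^ 2 ≤ s := by
    have h5 : (log s + 3) ^ 2 ≤ 2 * (log s) ^ 2 + 18 := by nlinarith [sq_nonneg (log s - 3)]
    have h6 : (|A| + 1) * (log s + 3) ^ 2 ≤ (|A| + 1) * (2 * (log s) ^ 2 + 18) :=
      mul_le_mul_of_nonneg_left h5 (by positivity)
    have h7 : 36 * (|A| + 1) ≤ s := hCA.trans hsC
    nlinarith
  calc A * u * (log t) ^ 2 ≤ (|A| + 1) * u * (log t) ^ 2 := by
        have := le_abs_self A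
        have h8 : 0 ≤ u * (log t) ^ 2 := by positivity
        nlinarith
    _ ≤ (|A| + 1) * u * ((log s + 3) ^ 2 * (log u) ^ 2) :=
        mul_le_mul_of_nonneg_left hsq (by positivity)
    _ = ((|A| + 1) * (log s + 3) ^ 2) * w := by rw [hw]; ring
    _ ≤ s * w := mul_le_mul_of_nonneg_right h4 hw0.le
    _ = t := hst.symm

open Filter in
theorem u_asym2 (c B K₁ K₂ x₀ Y₀ : ℝ) (hc : 0 < c) : ∃ t₀ : ℝ, ∀ t : ℝ, t₀ ≤ t →
    1 ≤ log t ∧ 2 ≤ t ∧ 2000 ≤ c * t / (log t) ^ 2 ∧ Y₀ ≤ exp (c * t / (log t) ^ 2) ∧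
      x₀ ≤ exp (3 / 4 * t) ∧ B * t ^ 2 ≤ exp (11 / 64 * t) ∧ K₁ ≤ exp (t / 2) ∧
      K₂ * t ^ 4 ≤ exp (c * t / (log t) ^ 2 / 16) := by
  have key : ∀ᶠ t : ℝ in atTop, 1 ≤ log t ∧ 2 ≤ t ∧ 2000 ≤ c * t / (log t) ^ 2 ∧
      Y₀ ≤ exp (c * t / (log t) ^ 2) ∧ x₀ ≤ exp (3 / 4 * t) ∧ B * t ^ 2 ≤ exp (11 / 64 * t) ∧
      K₁ ≤ exp (t / 2) ∧ K₂ * t ^ 4 ≤ exp (c * t / (log t) ^ 2 / 16) := by
    have e1 : ∀ᶠ t : ℝ in atTop, 1 ≤ log t := tendsto_log_atTop.eventually_ge_atTop 1
    have e2 : ∀ᶠ t : ℝ in atTop, 2 ≤ t := eventually_ge_atTop _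
    have e3 : ∀ᶠ t : ℝ in atTop, Y₀ ≤ t := eventually_ge_atTop _
    have e4 : ∀ᶠ t : ℝ in atTop, 2 * x₀ ≤ t := eventually_ge_atTop _
    have e4' : ∀ᶠ t : ℝ in atTop, 2 * K₁ ≤ t := eventually_ge_atTop _
    have e4'' : ∀ᶠ t : ℝ in atTop, K₂ ≤ t := eventually_ge_atTop _
    have e5 := (isLittleO_pow_log_id_atTop (n := 3)).bound (show 0 < c / 2000 by positivity)
    have e6 := (isLittleO_pow_exp_pos_mul_atTop (k := 2) (show (0 : ℝ) < 11 / 64 by norm_num)).bound
      (show 0 < 1 / (|B| + 1) by positivity)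
    filter_upwards [e1, e2, e3, e4, e4', e4'', e5, e6] with t h1 h2 h3 h4 h4' h4'' h5 h6
    have ht0 : 0 < t := by linarith
    have hl0 : 0 < log t := by linarith
    rw [norm_of_nonneg (by positivity), id, norm_of_nonneg ht0.le] at h5
    rw [norm_of_nonneg (by positivity), norm_of_nonneg (exp_pos _).le] at h6
    have k1 : 2000 * log t ≤ c * t / (log t) ^ 2 := by
      rw [le_div_iff₀ (by positivity)]
      nlinarith
    have k2 : exp (log t) = t := exp_log ht0
    refine ⟨h1, h2, by linarith, ?_, ?_, ?_, ?_, ?_⟩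
    · calc Y₀ ≤ t := h3
        _ = exp (log t) := k2.symm
        _ ≤ _ := exp_le_exp.2 (by linarith)
    · have := add_one_le_exp (3 / 4 * t)
      linarith
    · rw [one_div, inv_mul_eq_div, le_div_iff₀ (by positivity)] at h6
      have := le_abs_self B
      have h7 : 0 ≤ t ^ 2 := by positivity
      nlinarith
    · have := add_one_le_exp (t / 2)
      linarith
    · have k3 : K₂ * t ^ 4 ≤ t ^ 5 := by
        calc K₂ * t ^ 4 ≤ t * t ^ 4 := mul_le_mul_of_nonneg_right h4'' (by positivity)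
          _ = t ^ 5 := by ring
      refine k3.trans ?_
      calc t ^ 5 = exp (log t) ^ 5 := by rw [k2]
        _ = exp (5 * log t) := by rw [← exp_nat_mul]; norm_num
        _ ≤ _ := exp_le_exp.2 (by linarith)
  exact eventually_atTop.1 key

/-- the final contradiction -/
theorem u_fin {t lam c₂ c₀ D η V Y w N : ℝ} (ht : 2 ≤ t) (hlam : 2000 ≤ lam) (hc₂ : 0 < c₂)
    (hc₀ : 0 < c₀) (hD1 : 1 ≤ D) (hD : D ≤ exp (lam / 4000)) (hη : c₀ / D ≤ η)
    (hV : V = exp (3 / 4 * t)) (hY1 : exp lam ≤ Y) (hYV : Y ≤ V) (hw0 : 0 ≤ w)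
    (hw : w ≤ Y ^ ((1 : ℝ) / 16)) (hN0 : 0 ≤ N) (hN : N ≤ exp (lam / 2000))
    (hk : 27 / (c₂ * c₀ ^ 4) * t ^ 4 ≤ exp (lam / 16))
    (hS : c₂ * η ^ 4 * V / (log V) ^ 4 ≤ w * ((N + D) * (1 + 12 * V / √Y))) : False := by
  have ht0 : 0 < t := by linarith
  have hD0 : 0 < D := by linarith
  have hV0 : 0 < V := by rw [hV]; exact exp_pos _
  have hY0 : 0 < Y := lt_of_lt_of_le (exp_pos _) hY1
  have hYone : 1 ≤ Y := (one_le_exp (by linarith)).trans hY1
  have hsY : 0 < √Y := sqrt_pos.2 hY0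
  have hlogV : log V = 3 / 4 * t := by rw [hV, log_exp]
  have hη0 : 0 < η := lt_of_lt_of_le (by positivity) hη
  -- the left side
  have a1 : c₂ * (c₀ / D) ^ 4 * V / t ^ 4 ≤ c₂ * η ^ 4 * V / (log V) ^ 4 := by
    rw [hlogV]
    apply div_le_div₀ (by positivity) _ (by positivity)
    · exact pow_le_pow_left₀ (by positivity) (by linarith) 4
    · apply mul_le_mul_of_nonneg_right _ hV0.le
      exact mul_le_mul_of_nonneg_left (pow_le_pow_left₀ (by positivity) hη 4) hc₂.le
  -- the right side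
  have a2 : 1 + 12 * V / √Y ≤ 13 * V / √Y := by
    have h1 : √Y ≤ V := by
      refine le_trans ?_ hYV
      rw [sqrt_le_left (by linarith)]
      nlinarith
    have h2 : 1 ≤ V / √Y := (one_le_div hsY).2 h1
    calc 1 + 12 * V / √Y ≤ V / √Y + 12 * V / √Y := by linarith
      _ = 13 * V / √Y := by ring
  have a3 : N + D ≤ 2 * exp (lam / 2000) := by
    have : exp (lam / 4000) ≤ exp (lam / 2000) := exp_le_exp.2 (by linarith)
    linarith
  have a4 : w * ((N + D) * (1 + 12 * V / √Y)) ≤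
      Y ^ ((1 : ℝ) / 16) * (2 * exp (lam / 2000) * (13 * V / √Y)) := by
    have h1 : 0 ≤ 12 * V / √Y := by positivity
    apply mul_le_mul hw _ (by positivity) (by positivity)
    exact mul_le_mul a3 a2 (by positivity) (by positivity)
  have a5 : Y ^ ((1 : ℝ) / 16) / √Y = Y ^ (-(7 : ℝ) / 16) := by
    rw [sqrt_eq_rpow, ← rpow_sub hY0]
    norm_num
  have a6 : Y ^ (-(7 : ℝ) / 16) ≤ exp (-(7 / 16) * lam) := by
    have h1 : Y ^ (-(7 : ℝ) / 16) = (Y ^ ((7 : ℝ) / 16))⁻¹ := by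
      rw [← rpow_neg hY0.le]
      norm_num
    have h2 : exp (-(7 / 16) * lam) = (exp (7 / 16 * lam))⁻¹ := by
      rw [← exp_neg]
      congr 1
      ring
    rw [h1, h2]
    apply inv_anti₀ (exp_pos _)
    rw [mul_comm, exp_mul]
    exact rpow_le_rpow (exp_pos _).le hY1 (by norm_num)
  have a7 : Y ^ ((1 : ℝ) / 16) * (2 * exp (lam / 2000) * (13 * V / √Y)) ≤
      26 * exp (lam / 2000) * exp (-(7 / 16) * lam) * V := by
    calc Y ^ ((1 : ℝ) / 16) * (2 * exp (lam / 2000) * (13 * V / √Y))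
        = 26 * exp (lam / 2000) * V * (Y ^ ((1 : ℝ) / 16) / √Y) := by ring
      _ ≤ 26 * exp (lam / 2000) * V * exp (-(7 / 16) * lam) := by
          rw [a5]
          exact mul_le_mul_of_nonneg_left a6 (by positivity)
      _ = _ := by ring
  have a8 : c₂ * (c₀ / D) ^ 4 * V / t ^ 4 ≤ 26 * exp (lam / 2000) * exp (-(7 / 16) * lam) * V :=
    a1.trans (hS.trans (a4.trans a7))
  have a9 : c₂ * (c₀ / D) ^ 4 / t ^ 4 ≤ 26 * exp (lam / 2000) * exp (-(7 / 16) * lam) := by
    apply le_of_mul_le_mul_right _ hV0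
    calc c₂ * (c₀ / D) ^ 4 / t ^ 4 * V = c₂ * (c₀ / D) ^ 4 * V / t ^ 4 := by ring
      _ ≤ _ := a8
  have hD4 : D ^ 4 ≤ exp (lam / 1000) := by
    calc D ^ 4 ≤ exp (lam / 4000) ^ 4 := pow_le_pow_left₀ hD0.le hD 4
      _ = exp (lam / 1000) := by
          rw [← exp_nat_mul]
          congr 1
          push_cast
          ring
  have a10 : c₂ * c₀ ^ 4 ≤ 26 * t ^ 4 * (exp (lam / 1000) * exp (lam / 2000) *
      exp (-(7 / 16) * lam)) := by
    have h1 : c₂ * (c₀ / D) ^ 4 / t ^ 4 = c₂ * c₀ ^ 4 / (D ^ 4 * t ^ 4) := by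
      field_simp
    rw [h1, div_le_iff₀ (by positivity)] at a9
    refine a9.trans ?_
    calc 26 * exp (lam / 2000) * exp (-(7 / 16) * lam) * (D ^ 4 * t ^ 4)
        ≤ 26 * exp (lam / 2000) * exp (-(7 / 16) * lam) * (exp (lam / 1000) * t ^ 4) := by
          apply mul_le_mul_of_nonneg_left _ (by positivity)
          exact mul_le_mul_of_nonneg_right hD4 (by positivity)
      _ = _ := by ring
  have a11 : c₂ * c₀ ^ 4 * exp (lam / 16) ≤ 26 * t ^ 4 := by
    have h1 : exp (lam / 1000) * exp (lam / 2000) * exp (-(7 / 16) * lam) * exp (lam / 16) ≤ 1 := by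
      rw [← exp_add, ← exp_add, ← exp_add, exp_le_one_iff]
      linarith
    calc c₂ * c₀ ^ 4 * exp (lam / 16) ≤ 26 * t ^ 4 * (exp (lam / 1000) * exp (lam / 2000) *
          exp (-(7 / 16) * lam)) * exp (lam / 16) := mul_le_mul_of_nonneg_right a10 (exp_pos _).le
      _ = 26 * t ^ 4 * (exp (lam / 1000) * exp (lam / 2000) * exp (-(7 / 16) * lam) *
          exp (lam / 16)) := by ring
      _ ≤ 26 * t ^ 4 * 1 := mul_le_mul_of_nonneg_left h1 (by positivity)
      _ = _ := by ring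
  have a12 : 27 * t ^ 4 ≤ c₂ * c₀ ^ 4 * exp (lam / 16) := by
    have h1 : 0 < c₂ * c₀ ^ 4 := by positivity
    rw [div_mul_eq_mul_div, div_le_iff₀ h1] at hk
    linarith
  have : 0 < t ^ 4 := by positivity
  linarith

theorem u_SS_mono (W : WeierstrassCurve ℤ) {m n : ℕ} (h : m ≤ n) : SS W m ⊆ SS W n := by
  intro p hp
  rw [SS, Finset.mem_filter, Finset.mem_range] at hp ⊢
  exact ⟨by omega, hp.2⟩

/-! ### the main theorem -/

open Classical in
theorem u_main_aux : ∃ c t₀ : ℝ, 0 < c ∧ c ≤ 1 ∧ ∀ W : WeierstrassCurve ℤ, W.Δ ≠ 0 → NoCM W →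
    ∀ t H J D : ℝ, t₀ ≤ t → 3 ≤ H → 3 ≤ J → 1 ≤ D → |((jW W).num : ℝ)| ≤ H →
      ((jW W).den : ℝ) ≤ H → |((jW W : ℚ) : ℝ)| ≤ J → 1 / D ≤ |1728 - ((jW W : ℚ) : ℝ)| →
      ((bW W).card : ℝ) ≤ D → log J ≤ exp (t / 64) → 4000 * log D ≤ c * t / (log t) ^ 2 →
      ∀ x : ℝ, 0 < x → log x = exp t * log H →
        exp (c * t / (log t) ^ 2 / 2000) ≤ ((SS W ⌊x⌋₊).card : ℝ) := by
  obtain ⟨C₁, hC₁, Y₀, H₁⟩ := cover_main ∅
  obtain ⟨K, c₂, c₀, B, x₀, hK, hc₂, hc₀, hc₀1, hB, H₂⟩ := u_count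
  have hc : 0 < 1 / (32 * C₁ + 32) := by positivity
  set c := 1 / (32 * C₁ + 32) with hcdef
  have hc32 : c ≤ 1 / 32 := by
    rw [hcdef]
    exact one_div_le_one_div_of_le (by norm_num) (by linarith)
  have hc1 : 2 * C₁ * c ≤ 1 / 16 := by
    rw [hcdef, mul_one_div, div_le_div_iff₀ (by positivity) (by norm_num)]
    nlinarith
  obtain ⟨t₀, H₃⟩ := u_asym2 c (6 * B) (144 * K ^ 2 / c₀ ^ 4) (27 / (c₂ * c₀ ^ 4)) x₀ Y₀ hc
  refine ⟨c, t₀, hc, by linarith, ?_⟩
  intro W hΔ hCM t H J D ht hH hJ hD1 hc4 hΔH hJ4 hc6 hω hJt hDt x hx0 hxt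
  obtain ⟨lo, η, hlo, hlo', hη, hη0, hη1, Hc⟩ := H₂ W hΔ hCM
  obtain ⟨g1, g2, g3, g4, g5, g6, g7, g8⟩ := H₃ t ht
  by_contra hcon
  push Not at hcon
  set lam := c * t / (log t) ^ 2 with hlamdef
  have ht0 : 0 < t := by linarith
  have hD0 : 0 < D := by linarith
  have hlt0 : 0 < log t := by linarith
  have hlamt : lam ≤ c * t := div_le_self (by positivity) (one_le_pow₀ g1)
  have hlamt' : lam ≤ t / 32 := by nlinarith
  -- the number `Y`
  set E := exp lam with hE
  set Y := ⌈E⌉₊ with hY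
  have hE2 : 2 ≤ E := by
    have := add_one_le_exp lam
    linarith
  have hYE : E ≤ Y := Nat.le_ceil _
  have hYE2 : (Y : ℝ) ≤ 2 * E := by
    have := Nat.ceil_lt_add_one (show 0 ≤ E by linarith)
    linarith
  have hY0 : (0 : ℝ) < Y := by linarith
  have he2 : (2 : ℝ) ≤ exp 1 := by
    have := add_one_le_exp (1 : ℝ)
    linarith
  have hYexp : (Y : ℝ) ≤ exp (1 + lam) := by
    rw [exp_add]
    exact hYE2.trans (mul_le_mul_of_nonneg_right he2 (exp_pos _).le)
  -- the number `V`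
  set V := exp (3 / 4 * t) with hV
  have hV0 : 0 < V := exp_pos _
  have hlogV : log V = 3 / 4 * t := log_exp _
  have hYV : (Y : ℝ) ≤ V := hYexp.trans (exp_le_exp.2 (by linarith))
  -- `x` is large
  have hexp_t : t + 1 ≤ exp t := add_one_le_exp t
  have hxe : x = exp (exp t * log H) := by rw [← hxt, exp_log hx0]
  have hlogH : 1 ≤ log H := by
    rw [le_log_iff_exp_le (by linarith)]
    have := exp_one_lt_d9
    linarith
  have hetH : exp t ≤ exp t * log H := le_mul_of_one_le_right (exp_pos _).le hlogH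
  have hYx : Y ≤ ⌊x⌋₊ := by
    apply Nat.le_floor
    refine hYV.trans ?_
    rw [hxe]
    exact exp_le_exp.2 (by linarith)
  -- the number of primes
  set N : ℝ := ((SS W ⌊x⌋₊).card : ℝ) with hNdef
  have hN0 : 0 ≤ N := Nat.cast_nonneg _
  have hDexp : D ≤ exp (lam / 4000) := by
    rw [← log_le_iff_le_exp hD0]
    linarith
  -- the covering modulus
  have hYY₀ : Y₀ ≤ Y := by
    have : (Y₀ : ℝ) ≤ Y := g4.trans hYE
    exact_mod_cast this
  have hcardS : ((SS W Y ∪ (bW W).filter (fun p => p ≤ Y)).card : ℝ) ≤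
      (Y : ℝ) ^ ((1 : ℝ) / 1000) := by
    have b1 : ((SS W Y ∪ (bW W).filter (fun p => p ≤ Y)).card : ℝ) ≤ N + D := by
      have b2 := Finset.card_union_le (SS W Y) ((bW W).filter (fun p => p ≤ Y))
      have b3 : (SS W Y).card ≤ (SS W ⌊x⌋₊).card := Finset.card_le_card (u_SS_mono W hYx)
      have b4 : ((bW W).filter (fun p => p ≤ Y)).card ≤ (bW W).card := Finset.card_filter_le _ _
      have b5 : (SS W Y ∪ (bW W).filter (fun p => p ≤ Y)).card ≤
          (SS W ⌊x⌋₊).card + (bW W).card := by omega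
      have b6 : ((SS W Y ∪ (bW W).filter (fun p => p ≤ Y)).card : ℝ) ≤
          ((SS W ⌊x⌋₊).card : ℝ) + ((bW W).card : ℝ) := by exact_mod_cast b5
      linarith
    have b7 : N + D ≤ 2 * exp (lam / 2000) := by
      have : exp (lam / 4000) ≤ exp (lam / 2000) := exp_le_exp.2 (by linarith)
      linarith
    have b8 : 2 * exp (lam / 2000) ≤ exp (lam / 1000) := by
      have e : lam / 1000 = lam / 2000 + lam / 2000 := by ring
      rw [e, exp_add]
      apply mul_le_mul_of_nonneg_right _ (exp_pos _).le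
      exact he2.trans (exp_le_exp.2 (by linarith))
    have b9 : exp (lam / 1000) ≤ (Y : ℝ) ^ ((1 : ℝ) / 1000) := by
      have e : lam / 1000 = lam * (1 / 1000) := by ring
      rw [e, exp_mul]
      exact rpow_le_rpow (exp_pos _).le hYE (by norm_num)
    linarith
  obtain ⟨M, hM0, hModd, hM3, -, hMk, hMlog, hMw⟩ := H₁ Y hYY₀
    (SS W Y ∪ (bW W).filter (fun p => p ≤ Y)) (fun p hp => by
      rw [Finset.mem_union, Finset.mem_filter] at hp
      rcases hp with hp | hp
      · rw [SS, Finset.mem_filter, Finset.mem_range] at hp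
        exact ⟨hp.2.1, by omega⟩
      · exact ⟨Nat.prime_of_mem_primeFactors (Finset.mem_filter.1 hp.1).1, hp.2⟩) hcardS
  have hMR : (0 : ℝ) < M := by exact_mod_cast hM0
  have hlogY1 : lam ≤ log Y := (le_log_iff_exp_le hY0).2 hYE
  have hlogY2 : log Y ≤ 2 * lam := by
    have : log Y ≤ 1 + lam := (log_le_iff_le_exp hY0).2 hYexp
    linarith
  have hllY0 : 0 ≤ log (log Y) := log_nonneg (by linarith)
  have hllY : log (log Y) ≤ log t := log_le_log (by linarith) (by linarith)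
  have hM : (M : ℝ) ≤ exp (t / 16) := by
    rw [← log_le_iff_le_exp hMR]
    calc log M ≤ C₁ * log Y * (log (log Y)) ^ 2 := hMlog
      _ ≤ C₁ * (2 * lam) * (log t) ^ 2 := by
          apply mul_le_mul _ (pow_le_pow_left₀ hllY0 hllY 2) (by positivity) (by positivity)
          exact mul_le_mul_of_nonneg_left hlogY2 hC₁.le
      _ = 2 * C₁ * c * t := by
          rw [hlamdef]
          field_simp
      _ ≤ 1 / 16 * t := mul_le_mul_of_nonneg_right hc1 ht0.le
      _ = t / 16 := by ring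
  -- the logarithms of the height and of `j`
  have hlog2H : 1 + log (2 * H) ≤ 3 * log H := by
    rw [log_mul (by norm_num) (by linarith)]
    have h1 := log_two_lt_d9
    linarith
  have hlog2J : 1 + log (2 * J) ≤ 3 * exp (t / 64) := by
    rw [log_mul (by norm_num) (by linarith)]
    have h1 := log_two_lt_d9
    have h2 : 1 ≤ exp (t / 64) := one_le_exp (by linarith)
    linarith
  have hlo2 : lo ≤ 12 * exp (t / 64) := by
    have h1 : log (2 + |((jW W : ℚ) : ℝ)|) ≤ log (2 * J) := by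
      apply log_le_log (by have := abs_nonneg ((jW W : ℚ) : ℝ); linarith)
      linarith
    linarith
  have hηD : c₀ / D ≤ η := by
    refine le_trans ?_ hη
    rw [div_eq_mul_one_div]
    apply mul_le_mul_of_nonneg_left _ hc₀.le
    apply le_min
    · rw [div_le_one hD0]
      exact hD1
    · exact hc6
  -- the conditions of the counting theorem
  have hcond1 : (K * lo / η ^ 2) ^ 2 * M ≤ V := by
    have h1 : (c₀ / D) ^ 4 ≤ η ^ 4 := pow_le_pow_left₀ (by positivity) hηD 4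
    have h2 : (K * lo / η ^ 2) ^ 2 = K ^ 2 * lo ^ 2 / η ^ 4 := by
      rw [div_pow, mul_pow]
      congr 1
      ring
    have h3 : K ^ 2 * lo ^ 2 / η ^ 4 ≤ K ^ 2 * (12 * exp (t / 64)) ^ 2 / (c₀ / D) ^ 4 := by
      apply div_le_div₀ (by positivity) _ (by positivity) h1
      exact mul_le_mul_of_nonneg_left (pow_le_pow_left₀ (by linarith) hlo2 2) (by positivity)
    have h4 : K ^ 2 * (12 * exp (t / 64)) ^ 2 / (c₀ / D) ^ 4 =
        (144 * K ^ 2 / c₀ ^ 4) * (exp (t / 64) ^ 2 * D ^ 4) := by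
      field_simp
      ring
    have h5 : D ^ 4 ≤ exp (t / 64) := by
      calc D ^ 4 ≤ exp (lam / 4000) ^ 4 := pow_le_pow_left₀ hD0.le hDexp 4
        _ = exp (4 * (lam / 4000)) := by rw [← exp_nat_mul]; norm_num
        _ ≤ exp (t / 64) := exp_le_exp.2 (by linarith)
    rw [h2]
    calc K ^ 2 * lo ^ 2 / η ^ 4 * M
        ≤ (144 * K ^ 2 / c₀ ^ 4) * (exp (t / 64) ^ 2 * D ^ 4) * M := by
          apply mul_le_mul_of_nonneg_right _ hMR.le
          rw [← h4]
          exact h3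
      _ ≤ exp (t / 2) * (exp (t / 64) ^ 2 * exp (t / 64)) * exp (t / 16) := by
          apply mul_le_mul _ hM hMR.le (by positivity)
          apply mul_le_mul g7 _ (by positivity) (exp_pos _).le
          exact mul_le_mul_of_nonneg_left h5 (by positivity)
      _ = exp (39 / 64 * t) := by
          rw [← exp_nat_mul, ← exp_add, ← exp_add, ← exp_add]
          congr 1
          push_cast
          ring
      _ ≤ V := exp_le_exp.2 (by linarith)
  have hcond2 : exp (B * (1 + log (|((jW W).num : ℝ)| + (jW W).den)) * M * V * log V ^ 2) ≤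
      (⌊x⌋₊ : ℝ) := by
    have hnd : |((jW W).num : ℝ)| + ((jW W).den : ℝ) ≤ 2 * H := by linarith
    have hnd1 : (1 : ℝ) ≤ |((jW W).num : ℝ)| + (jW W).den := by
      have h2 : (1 : ℝ) ≤ (jW W).den := by exact_mod_cast (jW W).den_pos
      have := abs_nonneg ((jW W).num : ℝ)
      linarith
    have hl1 : 1 + log (|((jW W).num : ℝ)| + (jW W).den) ≤ 3 * log H := by
      have := log_le_log (by linarith) hnd
      linarith
    have hl0 : 0 ≤ log (|((jW W).num : ℝ)| + (jW W).den) := log_nonneg hnd1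
    have b1 : B * (1 + log (|((jW W).num : ℝ)| + (jW W).den)) * M * V * log V ^ 2 ≤
        exp t * log H / 2 := by
      rw [hlogV]
      calc B * (1 + log (|((jW W).num : ℝ)| + (jW W).den)) * M * V * (3 / 4 * t) ^ 2
          ≤ B * (3 * log H) * exp (t / 16) * V * t ^ 2 := by
            apply mul_le_mul _ (pow_le_pow_left₀ (by positivity) (by linarith) 2) (by positivity)
              (by positivity)
            apply mul_le_mul_of_nonneg_right _ hV0.le
            apply mul_le_mul _ hM hMR.le (by positivity)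
            exact mul_le_mul_of_nonneg_left hl1 (by linarith)
        _ = (6 * B * t ^ 2) * (exp (t / 16) * V) * log H / 2 := by ring
        _ ≤ exp (11 / 64 * t) * (exp (t / 16) * V) * log H / 2 := by
            apply div_le_div_of_nonneg_right _ (by norm_num)
            apply mul_le_mul_of_nonneg_right _ (by linarith)
            exact mul_le_mul_of_nonneg_right g6 (by positivity)
        _ = exp (63 / 64 * t) * log H / 2 := by
            rw [hV, ← exp_add, ← exp_add]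
            congr 3
            ring
        _ ≤ exp t * log H / 2 := by
            apply div_le_div_of_nonneg_right _ (by norm_num)
            apply mul_le_mul_of_nonneg_right _ (by linarith)
            exact exp_le_exp.2 (by linarith)
    have b2 : exp (exp t * log H / 2) ^ 2 = x := by
      rw [← exp_nat_mul, hxe]
      congr 1
      push_cast
      ring
    have b3 : 2 ≤ exp (exp t * log H / 2) := by
      have := add_one_le_exp (exp t * log H / 2)
      linarith
    have b4 := Nat.lt_floor_add_one x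
    have b5 : exp (exp t * log H / 2) ≤ (⌊x⌋₊ : ℝ) := by nlinarith
    exact (exp_le_exp.2 b1).trans b5
  have hmain := Hc Y M hM0 hModd hM3 (fun p hp hp3 h => hMk p hp hp3 (by
    rcases h with h | h | h
    · exact Or.inl (Finset.mem_union_left _ h)
    · exact Or.inl (Finset.mem_union_right _ (Finset.mem_filter.2 h))
    · exact Or.inr (Or.inr h))) V g5 hcond1 ⌊x⌋₊ hcond2
  -- the sum
  set R := (SS W ⌊x⌋₊ ∪ bW W).filter (fun p => Y < p) with hR
  have hRcard : (R.card : ℝ) ≤ N + D := by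
    have b1 : R.card ≤ (SS W ⌊x⌋₊).card + (bW W).card :=
      (Finset.card_filter_le _ _).trans (Finset.card_union_le _ _)
    have b2 : (R.card : ℝ) ≤ ((SS W ⌊x⌋₊).card : ℝ) + ((bW W).card : ℝ) := by
      exact_mod_cast b1
    linarith
  have hsum : ∑ p ∈ R, (1 + 12 * V / √(p : ℝ)) ≤ (N + D) * (1 + 12 * V / √(Y : ℝ)) := by
    have h1 : ∀ p ∈ R, (1 + 12 * V / √(p : ℝ)) ≤ 1 + 12 * V / √(Y : ℝ) := by
      intro p hp
      rw [hR, Finset.mem_filter] at hp
      have h2 : (Y : ℝ) ≤ p := by exact_mod_cast hp.2.le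
      have h3 : √(Y : ℝ) ≤ √(p : ℝ) := sqrt_le_sqrt h2
      have h4 : 12 * V / √(p : ℝ) ≤ 12 * V / √(Y : ℝ) :=
        div_le_div_of_nonneg_left (by positivity) (sqrt_pos.2 hY0) h3
      linarith
    have h5 : 0 ≤ 1 + 12 * V / √(Y : ℝ) := by
      have := sqrt_nonneg (Y : ℝ)
      positivity
    calc ∑ p ∈ R, (1 + 12 * V / √(p : ℝ)) ≤ ∑ _p ∈ R, (1 + 12 * V / √(Y : ℝ)) :=
          Finset.sum_le_sum h1
      _ = (R.card : ℝ) * (1 + 12 * V / √(Y : ℝ)) := by rw [Finset.sum_const, nsmul_eq_mul]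
      _ ≤ _ := mul_le_mul_of_nonneg_right hRcard h5
  exact u_fin (w := 2 ^ M.primeFactors.card) g2 g3 hc₂ hc₀ hD1 hDexp hηD hV hYE hYV
    (by positivity) hMw hN0 hcon.le g8
    (hmain.trans (mul_le_mul_of_nonneg_left hsum (by positivity)))

/-- The uniform lower bound. -/
theorem u_main : ∃ c C : ℝ, 0 < c ∧ 0 < C ∧ ∀ W : WeierstrassCurve ℤ, W.Δ ≠ 0 → NoCM W →
    ∀ H J D : ℝ, 3 ≤ H → 3 ≤ J → 16 ≤ D → |((jW W).num : ℝ)| ≤ H → ((jW W).den : ℝ) ≤ H →
      |((jW W : ℚ) : ℝ)| ≤ J → 1 / D ≤ |1728 - ((jW W : ℚ) : ℝ)| → ((bW W).card : ℝ) ≤ D →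
      ∀ z : ℝ, log J ^ C * D ^ (C * (log (log D)) ^ 2) ≤ z →
        exp (c * log z / (log (log z)) ^ 2) ≤ ((SS W ⌊H ^ z⌋₊).card : ℝ) := by
  obtain ⟨c, t₀, hc, hc1, Hm⟩ := u_main_aux
  obtain ⟨C₁, hC₁, H₁⟩ := u_asym1 (4000 / c)
  refine ⟨c / 2000, max (max C₁ 64) t₀, by positivity,
    lt_of_lt_of_le one_pos (hC₁.trans ((le_max_left _ _).trans (le_max_left _ _))), ?_⟩
  intro W hΔ hCM H J D hH hJ hD hc4 hΔH hJ4 hc6 hω z hz
  set C := max (max C₁ 64) t₀ with hC
  have hCC₁ : C₁ ≤ C := (le_max_left _ _).trans (le_max_left _ _)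
  have hC64 : 64 ≤ C := (le_max_right _ _).trans (le_max_left _ _)
  have hCt : t₀ ≤ C := le_max_right _ _
  -- the numbers `J` and `D`
  have hlogJ : 1 ≤ log J := by
    rw [le_log_iff_exp_le (by linarith)]
    have := exp_one_lt_d9
    linarith
  have hllJ : 0 ≤ log (log J) := log_nonneg hlogJ
  have hD0 : 0 < D := by linarith
  have hlog16 : (277 / 100 : ℝ) ≤ log 16 := by
    have h1 : (16 : ℝ) = 2 ^ 4 := by norm_num
    rw [h1, log_pow]
    have := log_two_gt_d9
    push_cast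
    linarith
  have hlogD16 : log 16 ≤ log D := log_le_log (by norm_num) hD
  have hlogD : (277 / 100 : ℝ) ≤ log D := hlog16.trans hlogD16
  have hllD : 1 ≤ log (log D) := by
    rw [le_log_iff_exp_le (by linarith)]
    have := exp_one_lt_d9
    linarith
  have hllD2 : 1 ≤ (log (log D)) ^ 2 := one_le_pow₀ hllD
  have hDD : 1 ≤ log D * (log (log D)) ^ 2 := by nlinarith
  set s := C * (log (log J) + log D * (log (log D)) ^ 2) with hs
  have hse : exp s = log J ^ C * D ^ (C * (log (log D)) ^ 2) := by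
    rw [rpow_def_of_pos (by linarith), rpow_def_of_pos hD0, ← exp_add, hs]
    congr 1
    ring
  have hz0 : 0 < z := lt_of_lt_of_le (by rw [← hse]; exact exp_pos _) hz
  have hst : s ≤ log z := by
    rw [le_log_iff_exp_le hz0, hse]
    exact hz
  set t := log z with ht
  have hzt : z = exp t := (exp_log hz0).symm
  have h1 : C * log (log J) ≤ s := by
    rw [hs]
    nlinarith
  have h2 : C * (log D * (log (log D)) ^ 2) ≤ s := by
    rw [hs]
    nlinarith
  have h3 : C ≤ s := by nlinarith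
  have hJt : log J ≤ exp (t / 64) := by
    rw [← log_le_iff_le_exp (by linarith)]
    nlinarith
  have hDt : 4000 * log D ≤ c * t / (log t) ^ 2 := by
    have h4 := H₁ (log D) t hlogD16 (by
      have h5 : C₁ * (log D * (log (log D)) ^ 2) ≤ C * (log D * (log (log D)) ^ 2) :=
        mul_le_mul_of_nonneg_right hCC₁ (by linarith)
      calc C₁ * log D * (log (log D)) ^ 2 = C₁ * (log D * (log (log D)) ^ 2) := by ring
        _ ≤ t := by linarith)
    have ht64 : 64 ≤ t := by linarith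
    have hlt : 0 < log t := log_pos (by linarith)
    rw [le_div_iff₀ (by positivity)]
    have h6 : 4000 / c * log D * (log t) ^ 2 = 4000 * log D * (log t) ^ 2 / c := by ring
    rw [h6, div_le_iff₀ hc] at h4
    linarith
  have hH0 : 0 < H := by linarith
  have hlx : log (H ^ z) = exp t * log H := by rw [log_rpow hH0, hzt]
  have := Hm W hΔ hCM t H J D (by linarith) hH hJ (by linarith) hc4 hΔH hJ4 hc6 hω hJt hDt
    (H ^ z) (rpow_pos_of_pos hH0 z) hlx
  refine le_trans (exp_le_exp.2 (le_of_eq ?_)) this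
  ring

end LT
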