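import Pool.Agent.Lib_MP_f1937f_un.Fam
import Pool.Agent.Lib_MP_f1937f_nt.KMertB

/-!
# MP_f1937f_nt, uniform form: many pairs `(m, Q)` (after KNu), explicit constants

Proof. `K`, `c₁`, `x₀` from `k_primes`, `c₂`, `T₀` from `k_family (hi / lo)`. Let `Λ = √(lo M V)`; for every prime `Q = 1 mod 3` in
`(Λ/K, Λ]` take the `m` of `k_family` for `T = Q / (M hi)`: `Q / (M hi) < m < Q / (M lo)`, so `lo < Q / (M m) < hi` and
`m Q < Q² / (M lo) ≤ V`. `T ≥ Λ / (K M hi) = √(lo V / M) / (K hi) ≥ T₀` if `V ≥ C M`; `log Λ ≤ log V` (`Λ² = lo M V ≤ V²`),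
`log T ≤ log V`. The number of pairs is at least `(c₁ Λ / log V) (c₂ Λ / (K M hi)) / (log V)³ = c V / (log V)⁴`.
-/

namespace LT

theorem u_nu : ∃ K c x₀ : ℝ, 1 < K ∧ 0 < c ∧ ∀ lo η : ℝ, 1 ≤ lo → 0 < η → η ≤ 1 / 6 →
    ∀ (M : ℕ) (V : ℝ), 0 < M → x₀ ≤ V → (K * lo / η ^ 2) ^ 2 * M ≤ V → ∃ S : Finset (ℕ × ℕ),
      (∀ q ∈ S, 0 < q.1 ∧ (∀ l : ℕ, l.Prime → l ∣ q.1 → l % 3 = 1) ∧ q.2.Prime ∧ q.2 % 3 = 1 ∧
        lo < (q.2 : ℝ) / ((M * q.1 : ℕ) : ℝ) ∧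
        (q.2 : ℝ) / ((M * q.1 : ℕ) : ℝ) < (1 + 6 * η) * lo ∧
        ((q.1 * q.2 : ℕ) : ℝ) ≤ V) ∧ c * η ^ 4 * V / Real.log V ^ 4 ≤ S.card := by
  classical
  obtain ⟨K, c₁, x₀, hK, hc₁, H₁⟩ := k_primes
  refine ⟨6273 * K, c₁ / (2 * 262144 * K), max (x₀ ^ 2) 9, by linarith, by positivity, ?_⟩
  intro lo η hlo hη0 hη6 M V hM hV hCV
  obtain ⟨hi, hhi⟩ : ∃ hi : ℝ, hi = (1 + 6 * η) * lo := ⟨_, rfl⟩
  rw [← hhi]
  have hlo0 : 0 < lo := by linarith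
  have hlh : lo < hi := by rw [hhi]; nlinarith
  have hhi2 : hi ≤ 2 * lo := by rw [hhi]; nlinarith
  have hhi0 : 0 < hi := by linarith
  have hK0 : 0 < K := by linarith
  have hratio : hi / lo = 1 + 6 * η := by
    rw [hhi]
    field_simp
  obtain ⟨c₂, hc₂def⟩ : ∃ c₂ : ℝ, c₂ = η ^ 4 / 262144 := ⟨_, rfl⟩
  have hc₂ : 0 < c₂ := by rw [hc₂def]; positivity
  have h336 : 336 ≤ 56 / η := by
    rw [le_div_iff₀ hη0]
    linarith
  set T₁ : ℝ := (56 / η) ^ 2 with hT₁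
  have hT₁3 : 3 ≤ T₁ := by
    rw [hT₁]
    nlinarith
  have hT₁0 : 0 < T₁ := by linarith
  have H₂ : ∀ T : ℝ, T₁ ≤ T → ∃ F : Finset ℕ, (∀ m ∈ F, T < m ∧ (m : ℝ) < hi / lo * T ∧
      ∀ q : ℕ, q.Prime → q ∣ m → q % 3 = 1) ∧ c₂ * T / Real.log T ^ 3 ≤ F.card := by
    intro T hT
    rw [hratio, hc₂def]
    exact u_family η hη0 hη6 T hT
  have hA : 0 < (T₁ * K * hi) ^ 2 := by positivity
  have hCbig : (T₁ * K * hi) ^ 2 + lo + 1 ≤ (6273 * K * lo / η ^ 2) ^ 2 := by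
    have e1 : T₁ * K * hi ≤ 6272 * (K * lo / η ^ 2) := by
      have e2 : T₁ * K * hi ≤ T₁ * K * (2 * lo) := mul_le_mul_of_nonneg_left hhi2 (by positivity)
      refine e2.trans (le_of_eq ?_)
      rw [hT₁]
      field_simp
      norm_num
    have e3 : lo ≤ K * lo / η ^ 2 := by
      rw [le_div_iff₀ (by positivity)]
      have e4 : η ^ 2 ≤ 1 := by nlinarith
      nlinarith
    have e5 : 6273 * K * lo / η ^ 2 = 6273 * (K * lo / η ^ 2) := by ring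
    rw [e5]
    set z := K * lo / η ^ 2 with hz
    have hz1 : 1 ≤ z := by linarith
    have e6 : (T₁ * K * hi) ^ 2 ≤ (6272 * z) ^ 2 := pow_le_pow_left₀ (by positivity) e1 2
    nlinarith
  have hCV' : ((T₁ * K * hi) ^ 2 + lo + 1) * M ≤ V :=
    (mul_le_mul_of_nonneg_right hCbig (Nat.cast_nonneg _)).trans hCV
  replace hCV := hCV'
  have hM0 : (0 : ℝ) < M := by exact_mod_cast hM
  have hM1 : (1 : ℝ) ≤ M := by exact_mod_cast hM
  have hV9 : 9 ≤ V := (le_max_right _ _).trans hV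
  have hVx : x₀ ^ 2 ≤ V := (le_max_left _ _).trans hV
  have hV0 : 0 < V := by linarith
  have hCV1 : (T₁ * K * hi) ^ 2 * M ≤ V := by
    refine le_trans ?_ hCV
    exact mul_le_mul_of_nonneg_right (by linarith) hM0.le
  have hCV2 : lo * M ≤ V := by
    refine le_trans ?_ hCV
    exact mul_le_mul_of_nonneg_right (by linarith) hM0.le
  set Λ : ℝ := Real.sqrt (lo * M * V) with hΛ
  have hΛ2 : Λ ^ 2 = lo * M * V := Real.sq_sqrt (by positivity)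
  have hΛ0 : 0 < Λ := Real.sqrt_pos.2 (by positivity)
  have hΛV : Λ ≤ V := by
    rw [hΛ]
    apply Real.sqrt_le_iff.2
    refine ⟨hV0.le, ?_⟩
    nlinarith
  have hlM : 1 ≤ lo * M := one_le_mul_of_one_le_of_one_le hlo hM1
  have hVΛ : V ≤ Λ ^ 2 := by
    rw [hΛ2]
    nlinarith
  have hΛx : x₀ ≤ Λ := by
    by_contra hcon
    push Not at hcon
    have : Λ ^ 2 < x₀ ^ 2 := by nlinarith
    linarith
  have hΛ3 : 3 ≤ Λ := by
    by_contra hcon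
    push Not at hcon
    nlinarith
  have hlogV : 0 < Real.log V := Real.log_pos (by linarith)
  have hlogΛ : 0 < Real.log Λ := Real.log_pos (by linarith)
  have hlogle : Real.log Λ ≤ Real.log V := Real.log_le_log hΛ0 hΛV
  set P : Finset ℕ := (Finset.Icc 1 ⌊Λ⌋₊).filter
    (fun q : ℕ => q.Prime ∧ q % 3 = 1 ∧ Λ / K < (q : ℝ)) with hP
  have hPcard : c₁ * Λ / Real.log Λ ≤ (P.card : ℝ) := H₁ Λ hΛx
  have hPm : ∀ Q ∈ P, Q.Prime ∧ Q % 3 = 1 ∧ Λ / K < (Q : ℝ) ∧ (Q : ℝ) ≤ Λ := by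
    intro Q hQ
    rw [hP, Finset.mem_filter, Finset.mem_Icc] at hQ
    exact ⟨hQ.2.1, hQ.2.2.1, hQ.2.2.2, (Nat.le_floor_iff hΛ0.le).1 hQ.1.2⟩
  have hMh : 0 < (M : ℝ) * hi := by positivity
  -- the lower end of the windows
  have hTmin : T₁ ≤ Λ / K / (M * hi) := by
    rw [le_div_iff₀ hMh, le_div_iff₀ hK0]
    by_contra hcon
    push Not at hcon
    have h1 : Λ ^ 2 < (T₁ * (M * hi) * K) ^ 2 := by
      apply pow_lt_pow_left₀ hcon hΛ0.le (by norm_num)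
    rw [hΛ2] at h1
    have h2 : (T₁ * (M * hi) * K) ^ 2 = (T₁ * K * hi) ^ 2 * M * M := by ring
    rw [h2] at h1
    have h3 : (T₁ * K * hi) ^ 2 * M * M ≤ V * M := mul_le_mul_of_nonneg_right hCV1 hM0.le
    nlinarith
  have hTQ : ∀ Q ∈ P, T₁ ≤ (Q : ℝ) / (M * hi) ∧ Λ / K / (M * hi) ≤ (Q : ℝ) / (M * hi) ∧
      (Q : ℝ) / (M * hi) ≤ V := by
    intro Q hQ
    obtain ⟨-, -, h1, h2⟩ := hPm Q hQ
    have h3 : Λ / K / (M * hi) ≤ (Q : ℝ) / (M * hi) := div_le_div_of_nonneg_right h1.le hMh.le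
    refine ⟨hTmin.trans h3, h3, ?_⟩
    have h4 : 1 ≤ (M : ℝ) * hi := one_le_mul_of_one_le_of_one_le hM1 (by linarith)
    calc (Q : ℝ) / (M * hi) ≤ Q := div_le_self (Nat.cast_nonneg _) h4
      _ ≤ V := h2.trans hΛV
  have hF : ∀ Q : ℕ, ∃ F : Finset ℕ, Q ∈ P → (∀ m ∈ F, (Q : ℝ) / (M * hi) < m ∧
      (m : ℝ) < hi / lo * ((Q : ℝ) / (M * hi)) ∧ ∀ q : ℕ, q.Prime → q ∣ m → q % 3 = 1) ∧
      c₂ * ((Q : ℝ) / (M * hi)) / Real.log ((Q : ℝ) / (M * hi)) ^ 3 ≤ F.card := by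
    intro Q
    by_cases hQ : Q ∈ P
    · obtain ⟨F, h1, h2⟩ := H₂ ((Q : ℝ) / (M * hi)) (hTQ Q hQ).1
      exact ⟨F, fun _ => ⟨h1, h2⟩⟩
    · exact ⟨∅, fun h => absurd h hQ⟩
  choose F hF using hF
  set S : Finset (ℕ × ℕ) := (P.sigma F).image (fun x => (x.2, x.1)) with hS
  refine ⟨S, ?_, ?_⟩
  · intro q hq
    rw [hS, Finset.mem_image] at hq
    obtain ⟨⟨Q, m⟩, hx, rfl⟩ := hq
    rw [Finset.mem_sigma] at hx
    obtain ⟨hQ, hm⟩ := hx
    simp only at hQ hm ⊢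
    obtain ⟨hQp, hQ3, hQ1, hQ2⟩ := hPm Q hQ
    obtain ⟨hT1, -, -⟩ := hTQ Q hQ
    obtain ⟨hm1, hm2, hm3⟩ := (hF Q hQ).1 m hm
    have hm0 : (0 : ℝ) < m := by linarith
    have hm0' : 0 < m := by exact_mod_cast hm0
    have hQ0 : (0 : ℝ) < Q := by exact_mod_cast hQp.pos
    have hMm : (0 : ℝ) < M * m := by positivity
    have e1 : hi / lo * ((Q : ℝ) / (M * hi)) = Q / (M * lo) := by
      field_simp
    rw [e1, lt_div_iff₀ (by positivity)] at hm2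
    rw [div_lt_iff₀ hMh] at hm1
    refine ⟨hm0', hm3, hQp, hQ3, ?_, ?_, ?_⟩
    · rw [Nat.cast_mul, lt_div_iff₀ hMm]
      linarith
    · rw [Nat.cast_mul, div_lt_iff₀ hMm]
      linarith
    · rw [Nat.cast_mul]
      have h1 : (m : ℝ) * Q * (M * lo) ≤ V * (M * lo) := by
        calc (m : ℝ) * Q * (M * lo) = (m * (M * lo)) * Q := by ring
          _ ≤ Q * Q := mul_le_mul_of_nonneg_right hm2.le hQ0.le
          _ ≤ Λ * Λ := mul_le_mul hQ2 hQ2 hQ0.le hΛ0.le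
          _ = V * (M * lo) := by rw [← sq, hΛ2]; ring
      exact le_of_mul_le_mul_right h1 (by positivity)
  · have hinj : Function.Injective (fun x : (Σ _ : ℕ, ℕ) => (x.2, x.1)) := by
      rintro ⟨a, b⟩ ⟨c, d⟩ h
      simp only [Prod.mk.injEq] at h
      obtain ⟨h1, h2⟩ := h
      subst h1 h2
      rfl
    have hcard : S.card = ∑ Q ∈ P, (F Q).card := by
      rw [hS, Finset.card_image_of_injective _ hinj, Finset.card_sigma]
    rw [hcard]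
    push_cast
    have hterm : ∀ Q ∈ P, c₂ * (Λ / K / (M * hi)) / Real.log V ^ 3 ≤ ((F Q).card : ℝ) := by
      intro Q hQ
      obtain ⟨hT1, hT2, hT3⟩ := hTQ Q hQ
      refine le_trans ?_ (hF Q hQ).2
      have h1 : 0 < Real.log ((Q : ℝ) / (M * hi)) := Real.log_pos (by linarith)
      have h2 : Real.log ((Q : ℝ) / (M * hi)) ≤ Real.log V := Real.log_le_log (by linarith) hT3
      gcongr
    have hsum : (P.card : ℝ) * (c₂ * (Λ / K / (M * hi)) / Real.log V ^ 3) ≤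
        ∑ Q ∈ P, ((F Q).card : ℝ) := by
      have := Finset.sum_le_sum hterm
      rw [Finset.sum_const, nsmul_eq_mul] at this
      exact this
    refine le_trans ?_ hsum
    have h1 : c₁ * Λ / Real.log V ≤ (P.card : ℝ) := by
      refine le_trans ?_ hPcard
      gcongr
    have h2 : 0 ≤ c₂ * (Λ / K / (M * hi)) / Real.log V ^ 3 := by positivity
    have hfin : c₁ / (2 * 262144 * K) * η ^ 4 * V / Real.log V ^ 4 ≤
        c₁ * c₂ * lo / (K * hi) * V / Real.log V ^ 4 := by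
      have e1 : c₁ / (2 * 262144 * K) * η ^ 4 ≤ c₁ * c₂ * lo / (K * hi) := by
        rw [hc₂def, le_div_iff₀ (by positivity)]
        calc c₁ / (2 * 262144 * K) * η ^ 4 * (K * hi) = c₁ * (η ^ 4 / 262144) * (hi / 2) := by
              field_simp
          _ ≤ c₁ * (η ^ 4 / 262144) * lo := by
              apply mul_le_mul_of_nonneg_left _ (by positivity)
              linarith
      gcongr
    refine hfin.trans ?_
    calc c₁ * c₂ * lo / (K * hi) * V / Real.log V ^ 4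
        = c₁ * Λ / Real.log V * (c₂ * (Λ / K / (M * hi)) / Real.log V ^ 3) := by
          have h3 : c₁ * Λ / Real.log V * (c₂ * (Λ / K / (M * hi)) / Real.log V ^ 3) =
            c₁ * c₂ * Λ ^ 2 / (K * (M * hi)) / Real.log V ^ 4 := by
            field_simp
          rw [h3, hΛ2]
          field_simp
      _ ≤ _ := mul_le_mul_of_nonneg_right h1 h2

end LT
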