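import Pool.Agent.Lib_MP_f1937f_un.GG
import Pool.Agent.Lib_MP_f1937f_nt.SFun

/-!
# MP_f1937f_nt, uniform theorem: explicit windows (piece UWIN)

`J1 y = j((1 + i y) / 2)`, `J2 y = j(i y)`. For a real `j ≠ 1728` there are a number `ylo ≥ 1`, `ylo ≪ 1 + log (2 + |j|)`, and a number
`η ≫ min(1, |1728 - j|)` such that `j < J1` on `(ylo, (1 + 6 η) ylo)` and `J1 ≤ j` beyond `3 ylo` (and the same for `J2` when
`j > 1728`, with the inequalities reversed).
-/

namespace LT.Sgn

open Polynomial WeierstrassCurve PeriodPair Filter Topology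

/-! ### the numbers `J1`, `J2` and `q j` -/

theorem u_J1_eq {y : ℝ} (hy : 0 < y) :
    J1 y = -(Real.exp (Real.pi * y) * (SLim.gg (up (1 / 2) (half_pos hy))).re) := by
  unfold J1
  rw [dif_pos hy, SLim.jt_eq, SLim.q_half hy, Complex.div_ofReal_re, Real.exp_neg]
  field_simp

theorem u_J2_eq {y : ℝ} (hy : 0 < y) :
    J2 y = Real.exp (2 * Real.pi * y) * (SLim.gg (up 0 hy)).re := by
  unfold J2
  rw [dif_pos hy, SLim.jt_eq, SLim.q_zero hy, Complex.div_ofReal_re, Real.exp_neg]
  field_simp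

theorem u_q1_norm {y : ℝ} (hy : 0 < y) :
    ‖Function.Periodic.qParam 1 (((up (1 / 2) (half_pos hy)) : UpperHalfPlane) : ℂ)‖ =
      Real.exp (-(Real.pi * y)) := by
  rw [SLim.q_half hy, Complex.norm_real, norm_neg, Real.norm_of_nonneg (Real.exp_pos _).le]

theorem u_q2_norm {y : ℝ} (hy : 0 < y) :
    ‖Function.Periodic.qParam 1 (((up 0 hy) : UpperHalfPlane) : ℂ)‖ =
      Real.exp (-(2 * Real.pi * y)) := by
  rw [SLim.q_zero hy, Complex.norm_real, Real.norm_of_nonneg (Real.exp_pos _).le]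

theorem u_exp_ge {x : ℝ} (n : ℕ) (h : (n : ℝ) ≤ x) : (27 / 10 : ℝ) ^ n ≤ Real.exp x := by
  have h1 : (27 / 10 : ℝ) ≤ Real.exp 1 := by
    have := Real.exp_one_gt_d9
    linarith
  calc (27 / 10 : ℝ) ^ n ≤ Real.exp 1 ^ n := pow_le_pow_left₀ (by norm_num) h1 n
    _ = Real.exp n := by rw [← Real.exp_nat_mul, mul_one]
    _ ≤ Real.exp x := Real.exp_le_exp.2 h

theorem u_exp_lt {x : ℝ} (n : ℕ) (h : x ≤ n) : Real.exp x ≤ (27183 / 10000 : ℝ) ^ n := by
  have h1 : Real.exp 1 ≤ (27183 / 10000 : ℝ) := by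
    have := Real.exp_one_lt_d9
    linarith
  calc Real.exp x ≤ Real.exp n := Real.exp_le_exp.2 h
    _ = Real.exp 1 ^ n := by rw [← Real.exp_nat_mul, mul_one]
    _ ≤ (27183 / 10000 : ℝ) ^ n := pow_le_pow_left₀ (Real.exp_pos _).le h1 n

theorem u_pi_gt : (314 / 100 : ℝ) < Real.pi := by
  have := Real.pi_gt_d2
  linarith

theorem u_pi_lt : Real.pi < (315 / 100 : ℝ) := by
  have := Real.pi_lt_d2
  linarith

theorem u_re {z : ℂ} (h : ‖z - 1‖ ≤ 1 / 8) : 7 / 8 ≤ z.re ∧ z.re ≤ 9 / 8 := by
  have h1 := (Complex.abs_re_le_norm (z - 1)).trans h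
  rw [Complex.sub_re, Complex.one_re, abs_le] at h1
  constructor <;> linarith

theorem u_J1_big {y : ℝ} (hy : 3 ≤ y) :
    -(9 / 8 * Real.exp (Real.pi * y)) ≤ J1 y ∧ J1 y ≤ -(7 / 8 * Real.exp (Real.pi * y)) := by
  have hy0 : 0 < y := by linarith
  have hpi := u_pi_gt
  have hq : ‖Function.Periodic.qParam 1 (((up (1 / 2) (half_pos hy0)) : UpperHalfPlane) : ℂ)‖ ≤
      1 / 7000 := by
    rw [u_q1_norm hy0, Real.exp_neg, ← one_div]
    apply one_div_le_one_div_of_le (by norm_num)
    refine le_trans ?_ (u_exp_ge 9 (by push_cast; nlinarith))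
    norm_num
  obtain ⟨h1, h2⟩ := u_re (SLim.u_gg_small _ hq)
  have h3 := Real.exp_pos (Real.pi * y)
  rw [u_J1_eq hy0]
  constructor <;> nlinarith

theorem u_J2_big {y : ℝ} (hy : 2 ≤ y) :
    7 / 8 * Real.exp (2 * Real.pi * y) ≤ J2 y ∧ J2 y ≤ 9 / 8 * Real.exp (2 * Real.pi * y) := by
  have hy0 : 0 < y := by linarith
  have hpi := u_pi_gt
  have hq : ‖Function.Periodic.qParam 1 (((up 0 hy0) : UpperHalfPlane) : ℂ)‖ ≤ 1 / 7000 := by
    rw [u_q2_norm hy0, Real.exp_neg, ← one_div]
    apply one_div_le_one_div_of_le (by norm_num)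
    refine le_trans ?_ (u_exp_ge 9 (by push_cast; nlinarith))
    norm_num
  obtain ⟨h1, h2⟩ := u_re (SLim.u_gg_small _ hq)
  have h3 := Real.exp_pos (2 * Real.pi * y)
  rw [u_J2_eq hy0]
  constructor <;> nlinarith

theorem u_J1_mid {y : ℝ} (h1 : 7 / 4 ≤ y) (h2 : y ≤ 37 / 20) : -6000 < J1 y := by
  have hy0 : 0 < y := by linarith
  have hpi := u_pi_gt
  have hpi2 := u_pi_lt
  have hq : ‖Function.Periodic.qParam 1 (((up (1 / 2) (half_pos hy0)) : UpperHalfPlane) : ℂ)‖ ≤
      48 / 10000 := by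
    rw [u_q1_norm hy0, Real.exp_neg]
    have e : (48 / 10000 : ℝ) = (10000 / 48 : ℝ)⁻¹ := by norm_num
    rw [e]
    apply inv_anti₀ (by norm_num)
    have a1 : (27 / 10 : ℝ) ^ 5 ≤ Real.exp 5 := u_exp_ge 5 (by norm_num)
    have a2 : (1495 / 1000 : ℝ) ≤ Real.exp (495 / 1000) := by
      have := Real.add_one_le_exp (495 / 1000 : ℝ)
      linarith
    calc (10000 / 48 : ℝ) ≤ (27 / 10 : ℝ) ^ 5 * (1495 / 1000) := by norm_num
      _ ≤ Real.exp 5 * Real.exp (495 / 1000) := mul_le_mul a1 a2 (by norm_num) (Real.exp_pos _).le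
      _ = Real.exp (5 + 495 / 1000) := (Real.exp_add _ _).symm
      _ ≤ Real.exp (Real.pi * y) := Real.exp_le_exp.2 (by nlinarith)
  have h3 := SLim.u_gg_mid _ hq
  have h4 := (Complex.re_le_norm (SLim.gg (up (1 / 2) (half_pos hy0)))).trans h3
  have h5 : Real.exp (Real.pi * y) ≤ (27183 / 10000 : ℝ) ^ 6 :=
    u_exp_lt 6 (by push_cast; nlinarith)
  have h6 := Real.exp_pos (Real.pi * y)
  rw [u_J1_eq hy0]
  have h7 : Real.exp (Real.pi * y) * (SLim.gg (up (1 / 2) (half_pos hy0))).re ≤
      (27183 / 10000 : ℝ) ^ 6 * 14 :=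
    (mul_le_mul_of_nonneg_left h4 h6.le).trans (mul_le_mul_of_nonneg_right h5 (by norm_num))
  have h8 : (27183 / 10000 : ℝ) ^ 6 * 14 < 6000 := by norm_num
  linarith

/-! ### the functions near `1` -/

theorem u_lip {J : ℝ → ℝ} (hc : ContinuousOn J (Set.Ioi 0)) (hd : DifferentiableAt ℝ J 1) :
    ∃ K : ℝ, 1 ≤ K ∧ ∀ y, 1 ≤ y → y ≤ 2 → |J y - J 1| ≤ K * (y - 1) := by
  obtain ⟨C, hC⟩ := hd.isBigO_sub.bound
  obtain ⟨δ, hδ, hb⟩ := Metric.eventually_nhds_iff.1 hC
  obtain ⟨B, hB⟩ := isCompact_Icc.exists_bound_of_continuousOn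
    (f := fun y => J y - J 1) (s := Set.Icc (1 : ℝ) 2)
    ((hc.mono fun y hy => lt_of_lt_of_le one_pos hy.1).sub continuousOn_const)
  have hB0 : 0 ≤ B := (norm_nonneg _).trans (hB 1 ⟨le_rfl, one_le_two⟩)
  refine ⟨max (max 1 C) (B / δ), le_max_of_le_left (le_max_left _ _), fun y h1 h2 => ?_⟩
  rcases lt_or_ge (y - 1) δ with h | h
  · have h3 := hb (show dist y 1 < δ by rw [Real.dist_eq, abs_of_nonneg (by linarith)]; exact h)
    rw [Real.norm_eq_abs, Real.norm_eq_abs, abs_of_nonneg (show 0 ≤ y - 1 by linarith)] at h3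
    refine h3.trans (mul_le_mul_of_nonneg_right ?_ (by linarith))
    exact (le_max_right _ _).trans (le_max_left _ _)
  · have h3 := hB y ⟨h1, h2⟩
    rw [Real.norm_eq_abs] at h3
    calc |J y - J 1| ≤ B := h3
      _ = B / δ * δ := by field_simp
      _ ≤ B / δ * (y - 1) := mul_le_mul_of_nonneg_left h (by positivity)
      _ ≤ _ := mul_le_mul_of_nonneg_right (le_max_right _ _) (by linarith)

theorem u_jt_diff {z : ℂ} (hz : 0 < z.im) :
    DifferentiableAt ℂ (fun w => jt (UpperHalfPlane.ofComplex w)) z := by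
  have h1 : DifferentiableAt ℂ (ModularForm.E₄ ∘ UpperHalfPlane.ofComplex) z :=
    (UpperHalfPlane.mdifferentiable_iff.mp (ModularFormClass.holo ModularForm.E₄)).differentiableAt
      ((isOpen_lt continuous_const Complex.continuous_im).mem_nhds hz)
  have h2 : DifferentiableAt ℂ (ModularForm.discriminant ∘ UpperHalfPlane.ofComplex) z :=
    (UpperHalfPlane.mdifferentiable_iff.mp
      (CuspFormClass.holo CuspForm.discriminant)).differentiableAt
      ((isOpen_lt continuous_const Complex.continuous_im).mem_nhds hz)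
  exact (h1.pow 3).div h2 (ModularForm.discriminant_ne_zero _)

theorem u_re_diff {F : ℂ → ℂ} {a b : ℂ} {y : ℝ} (h : DifferentiableAt ℂ F (a + y * b)) :
    DifferentiableAt ℝ (fun t : ℝ => (F (a + t * b)).re) y := by
  have h1 : DifferentiableAt ℝ F (a + y * b) := h.restrictScalars ℝ
  have h2 : DifferentiableAt ℝ (fun t : ℝ => a + (t : ℂ) * b) y := by
    have h3 : DifferentiableAt ℝ (fun t : ℝ => (t : ℂ)) y := Complex.ofRealCLM.differentiableAt
    exact (h3.mul_const b).const_add a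
  have h4 : DifferentiableAt ℝ (fun t : ℝ => F (a + t * b)) y := h1.comp y h2
  exact Complex.reCLM.differentiableAt.comp y h4

theorem u_J1_diff : DifferentiableAt ℝ J1 1 := by
  have h := u_re_diff (F := fun w => jt (UpperHalfPlane.ofComplex w)) (a := 1 / 2)
    (b := Complex.I / 2) (y := 1) (u_jt_diff (by simp))
  refine h.congr_of_eventuallyEq ?_
  filter_upwards [Ioi_mem_nhds (show (0 : ℝ) < 1 by norm_num)] with y hy
  have hy' : 0 < y := hy
  unfold J1
  rw [dif_pos hy']
  congr 2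
  have e : (1 / 2 : ℂ) + (y : ℂ) * (Complex.I / 2) = ((up (1 / 2) (half_pos hy') : UpperHalfPlane) : ℂ) := by
    rw [SLim.coe_up]
    push_cast
    ring
  rw [e, UpperHalfPlane.ofComplex_apply]

theorem u_J2_diff : DifferentiableAt ℝ J2 1 := by
  have h := u_re_diff (F := fun w => jt (UpperHalfPlane.ofComplex w)) (a := 0)
    (b := Complex.I) (y := 1) (u_jt_diff (by simp))
  refine h.congr_of_eventuallyEq ?_
  filter_upwards [Ioi_mem_nhds (show (0 : ℝ) < 1 by norm_num)] with y hy
  have hy' : 0 < y := hy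
  unfold J2
  rw [dif_pos hy']
  congr 2
  have e : (0 : ℂ) + (y : ℂ) * Complex.I = ((up 0 hy' : UpperHalfPlane) : ℂ) := by
    rw [SLim.coe_up, Complex.ofReal_zero]
  rw [e, UpperHalfPlane.ofComplex_apply]

/-! ### the windows -/

theorem u_win_bot : ∃ c : ℝ, 0 < c ∧ c ≤ 1 ∧ ∀ j : ℝ, j < 1728 → ∃ ylo η : ℝ, 1 ≤ ylo ∧
    ylo ≤ 2 * (1 + Real.log (2 + |j|)) ∧ c * min 1 |1728 - j| ≤ η ∧ 0 < η ∧ η ≤ 1 / 120 ∧
    (∀ y, ylo < y → y < (1 + 6 * η) * ylo → j < J1 y) ∧ ∀ y, 3 * ylo ≤ y → J1 y ≤ j := by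
  obtain ⟨K, hK, hlip⟩ := u_lip J1_cont u_J1_diff
  refine ⟨1 / (120 * K), by positivity, by rw [div_le_one (by positivity)]; linarith,
    fun j hj => ?_⟩
  have hlog2 : 0 ≤ Real.log (2 + |j|) := Real.log_nonneg (by have := abs_nonneg j; linarith)
  have hpi := u_pi_gt
  have hpi2 := u_pi_lt
  have hmin1 : min 1 |1728 - j| ≤ 1 := min_le_left _ _
  have hc120 : 1 / (120 * K) * min 1 |1728 - j| ≤ 1 / 120 := by
    calc 1 / (120 * K) * min 1 |1728 - j| ≤ 1 / (120 * K) * 1 :=
          mul_le_mul_of_nonneg_left hmin1 (by positivity)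
      _ ≤ 1 / 120 := by
          rw [mul_one]
          exact one_div_le_one_div_of_le (by norm_num) (by linarith)
  rcases le_or_gt (-6500) j with hA | hA
  · -- the window next to `1`
    have hδ : 0 < min 1 |1728 - j| := lt_min one_pos (abs_pos.2 (by linarith))
    refine ⟨1, 1 / (120 * K) * min 1 |1728 - j|, le_rfl, by linarith, le_rfl, by positivity,
      hc120, ?_, ?_⟩
    · intro y h1 h2
      rw [mul_one] at h2
      have h3 : y ≤ 2 := by nlinarith
      have h4 := hlip y h1.le h3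
      rw [J1_one] at h4
      have h5 : K * (y - 1) < 1728 - j := by
        have h6 : K * (y - 1) < K * (6 * (1 / (120 * K) * min 1 |1728 - j|)) :=
          mul_lt_mul_of_pos_left (by linarith) (by linarith)
        have h7 : K * (6 * (1 / (120 * K) * min 1 |1728 - j|)) = 1 / 20 * min 1 |1728 - j| := by
          field_simp
          norm_num
        have h8 : min 1 |1728 - j| ≤ 1728 - j := by
          refine (min_le_right _ _).trans (le_of_eq (abs_of_pos (by linarith)))
        linarith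
      have h9 := neg_abs_le (J1 y - 1728)
      linarith
    · intro y hy
      have h1 := (u_J1_big (y := y) (by linarith)).2
      have h2 : (27 / 10 : ℝ) ^ 9 ≤ Real.exp (Real.pi * y) :=
        u_exp_ge 9 (by push_cast; nlinarith)
      have h3 : (7429 : ℝ) < (27 / 10 : ℝ) ^ 9 := by norm_num
      linarith
  rcases le_or_gt (-1000000) j with hB | hB
  · -- the window near `√3`
    refine ⟨7 / 4, 1 / 120, by norm_num, by linarith, hc120, by norm_num, le_rfl, ?_, ?_⟩
    · intro y h1 h2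
      have := u_J1_mid h1.le (by linarith)
      linarith
    · intro y hy
      have h1 := (u_J1_big (y := y) (by linarith)).2
      have h2 : (27 / 10 : ℝ) ^ 16 ≤ Real.exp (Real.pi * y) :=
        u_exp_ge 16 (by push_cast; nlinarith)
      have h3 : (7000000 : ℝ) < (27 / 10 : ℝ) ^ 16 := by norm_num
      linarith
  -- the large values
  have hj0 : 0 < -j := by linarith
  have hjabs : |j| = -j := abs_of_neg (by linarith)
  set l := Real.log (-j) with hl
  have hel : Real.exp l = -j := Real.exp_log hj0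
  have hl12 : 12 ≤ l := by
    rw [hl, Real.le_log_iff_exp_le hj0]
    refine (u_exp_lt 12 (by norm_num)).trans ?_
    have : (27183 / 10000 : ℝ) ^ 12 < 1000000 := by norm_num
    linarith
  have hpi0 : 0 < Real.pi := Real.pi_pos
  refine ⟨4 / 5 * (l / Real.pi), 1 / 120, ?_, ?_, hc120, by norm_num, le_rfl, ?_, ?_⟩
  · have : 12 / 4 ≤ l / Real.pi := by
      rw [div_le_div_iff₀ (by norm_num) hpi0]
      nlinarith
    linarith
  · have h1 : l / Real.pi ≤ l := div_le_self (by linarith) (by linarith)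
    have h2 : l ≤ Real.log (2 + |j|) := by
      rw [hl, hjabs]
      exact Real.log_le_log hj0 (by linarith)
    linarith
  · intro y h1 h2
    have h3 : 3 ≤ y := by
      have : 15 / 4 ≤ l / Real.pi := by
        rw [div_le_div_iff₀ (by norm_num) hpi0]
        nlinarith
      linarith
    have h4 := (u_J1_big h3).1
    have h5 : Real.pi * y ≤ 21 / 25 * l := by
      have h6 : y ≤ 21 / 25 * (l / Real.pi) := by linarith
      calc Real.pi * y ≤ Real.pi * (21 / 25 * (l / Real.pi)) := mul_le_mul_of_nonneg_left h6 hpi0.le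
        _ = 21 / 25 * l := by field_simp
    have h7 : 9 / 8 * Real.exp (21 / 25 * l) < Real.exp l := by
      have h8 : Real.exp l = Real.exp (4 / 25 * l) * Real.exp (21 / 25 * l) := by
        rw [← Real.exp_add]
        congr 1
        ring
      rw [h8]
      apply mul_lt_mul_of_pos_right _ (Real.exp_pos _)
      have := Real.add_one_le_exp (4 / 25 * l)
      linarith
    have h9 := Real.exp_le_exp.2 h5
    linarith
  · intro y hy
    have h3 : 3 ≤ y := by
      have : 15 / 4 ≤ l / Real.pi := by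
        rw [div_le_div_iff₀ (by norm_num) hpi0]
        nlinarith
      linarith
    have h4 := (u_J1_big h3).2
    have h5 : 2 * l ≤ Real.pi * y := by
      have h6 : 12 / 5 * (l / Real.pi) ≤ y := by linarith
      calc 2 * l ≤ 12 / 5 * l := by linarith
        _ = Real.pi * (12 / 5 * (l / Real.pi)) := by field_simp
        _ ≤ Real.pi * y := mul_le_mul_of_nonneg_left h6 hpi0.le
    have h7 : 2 * Real.exp l ≤ Real.exp (Real.pi * y) := by
      calc 2 * Real.exp l ≤ Real.exp l * Real.exp l := by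
            apply mul_le_mul_of_nonneg_right _ (Real.exp_pos _).le
            have := Real.add_one_le_exp l
            linarith
        _ = Real.exp (2 * l) := by rw [← Real.exp_add]; ring_nf
        _ ≤ _ := Real.exp_le_exp.2 h5
    linarith

theorem u_win_top : ∃ c : ℝ, 0 < c ∧ c ≤ 1 ∧ ∀ j : ℝ, 1728 < j → ∃ ylo η : ℝ, 1 ≤ ylo ∧
    ylo ≤ 2 * (1 + Real.log (2 + |j|)) ∧ c * min 1 |1728 - j| ≤ η ∧ 0 < η ∧ η ≤ 1 / 120 ∧
    (∀ y, ylo < y → y < (1 + 6 * η) * ylo → J2 y < j) ∧ ∀ y, 3 * ylo ≤ y → j ≤ J2 y := by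
  obtain ⟨K, hK, hlip⟩ := u_lip J2_cont u_J2_diff
  refine ⟨1 / (120 * K), by positivity, by rw [div_le_one (by positivity)]; linarith,
    fun j hj => ?_⟩
  have hlog2 : 0 ≤ Real.log (2 + |j|) := Real.log_nonneg (by have := abs_nonneg j; linarith)
  have hpi := u_pi_gt
  have hpi2 := u_pi_lt
  have hmin1 : min 1 |1728 - j| ≤ 1 := min_le_left _ _
  have hc120 : 1 / (120 * K) * min 1 |1728 - j| ≤ 1 / 120 := by
    calc 1 / (120 * K) * min 1 |1728 - j| ≤ 1 / (120 * K) * 1 :=
          mul_le_mul_of_nonneg_left hmin1 (by positivity)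
      _ ≤ 1 / 120 := by
          rw [mul_one]
          exact one_div_le_one_div_of_le (by norm_num) (by linarith)
  rcases le_or_gt j 10000000 with hA | hA
  · -- the window next to `1`
    have hδ : 0 < min 1 |1728 - j| := lt_min one_pos (abs_pos.2 (by linarith))
    refine ⟨1, 1 / (120 * K) * min 1 |1728 - j|, le_rfl, by linarith, le_rfl, by positivity,
      hc120, ?_, ?_⟩
    · intro y h1 h2
      rw [mul_one] at h2
      have h3 : y ≤ 2 := by nlinarith
      have h4 := hlip y h1.le h3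
      rw [J2_one] at h4
      have h5 : K * (y - 1) < j - 1728 := by
        have h6 : K * (y - 1) < K * (6 * (1 / (120 * K) * min 1 |1728 - j|)) :=
          mul_lt_mul_of_pos_left (by linarith) (by linarith)
        have h7 : K * (6 * (1 / (120 * K) * min 1 |1728 - j|)) = 1 / 20 * min 1 |1728 - j| := by
          field_simp
          norm_num
        have h8 : min 1 |1728 - j| ≤ j - 1728 := by
          refine (min_le_right _ _).trans (le_of_eq ?_)
          rw [abs_sub_comm, abs_of_pos (by linarith)]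
        linarith
      have h9 := le_abs_self (J2 y - 1728)
      linarith
    · intro y hy
      have h1 := (u_J2_big (y := y) (by linarith)).1
      have h2 : (27 / 10 : ℝ) ^ 18 ≤ Real.exp (2 * Real.pi * y) :=
        u_exp_ge 18 (by push_cast; nlinarith)
      have h3 : (50000000 : ℝ) < (27 / 10 : ℝ) ^ 18 := by norm_num
      linarith
  -- the large values
  have hj0 : 0 < j := by linarith
  have hjabs : |j| = j := abs_of_pos hj0
  set l := Real.log j with hl
  have hel : Real.exp l = j := Real.exp_log hj0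
  have hl16 : 16 ≤ l := by
    rw [hl, Real.le_log_iff_exp_le hj0]
    refine (u_exp_lt 16 (by norm_num)).trans ?_
    have : (27183 / 10000 : ℝ) ^ 16 < 10000000 := by norm_num
    linarith
  have hpi0 : 0 < 2 * Real.pi := by positivity
  have hbig : 5 / 2 ≤ l / (2 * Real.pi) := by
    rw [div_le_div_iff₀ (by norm_num) hpi0]
    nlinarith
  refine ⟨4 / 5 * (l / (2 * Real.pi)), 1 / 120, ?_, ?_, hc120, by norm_num, le_rfl, ?_, ?_⟩
  · linarith
  · have h1 : l / (2 * Real.pi) ≤ l := div_le_self (by linarith) (by linarith)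
    have h2 : l ≤ Real.log (2 + |j|) := by
      rw [hl, hjabs]
      exact Real.log_le_log hj0 (by linarith)
    linarith
  · intro y h1 h2
    have h3 : 2 ≤ y := by linarith
    have h4 := (u_J2_big h3).2
    have h5 : 2 * Real.pi * y ≤ 21 / 25 * l := by
      have h6 : y ≤ 21 / 25 * (l / (2 * Real.pi)) := by linarith
      calc 2 * Real.pi * y ≤ 2 * Real.pi * (21 / 25 * (l / (2 * Real.pi))) :=
            mul_le_mul_of_nonneg_left h6 hpi0.le
        _ = 21 / 25 * l := by field_simp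
    have h7 : 9 / 8 * Real.exp (21 / 25 * l) < Real.exp l := by
      have h8 : Real.exp l = Real.exp (4 / 25 * l) * Real.exp (21 / 25 * l) := by
        rw [← Real.exp_add]
        congr 1
        ring
      rw [h8]
      apply mul_lt_mul_of_pos_right _ (Real.exp_pos _)
      have := Real.add_one_le_exp (4 / 25 * l)
      linarith
    have h9 := Real.exp_le_exp.2 h5
    linarith
  · intro y hy
    have h3 : 2 ≤ y := by linarith
    have h4 := (u_J2_big h3).1
    have h5 : 2 * l ≤ 2 * Real.pi * y := by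
      have h6 : 12 / 5 * (l / (2 * Real.pi)) ≤ y := by linarith
      calc 2 * l ≤ 12 / 5 * l := by linarith
        _ = 2 * Real.pi * (12 / 5 * (l / (2 * Real.pi))) := by field_simp
        _ ≤ 2 * Real.pi * y := mul_le_mul_of_nonneg_left h6 hpi0.le
    have h7 : 2 * Real.exp l ≤ Real.exp (2 * Real.pi * y) := by
      calc 2 * Real.exp l ≤ Real.exp l * Real.exp l := by
            apply mul_le_mul_of_nonneg_right _ (Real.exp_pos _).le
            have := Real.add_one_le_exp l
            linarith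
        _ = Real.exp (2 * l) := by rw [← Real.exp_add]; ring_nf
        _ ≤ _ := Real.exp_le_exp.2 h5
    linarith

end LT.Sgn
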